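import Mathlib

/-! # Capacities and approximation by harmonic functions in `L^q`, in three-space

Definitions, for `P` the Laplacian on three-space, `s = 0` and the local space `L^q`. -/

set_option autoImplicit false

open MeasureTheory Set Filter Topology
open scoped ContDiff Laplacian ENNReal

namespace Pool.Agent.W797.Cap

/-- Euclidean three-space. -/
abbrev E3 : Type := EuclideanSpace ℝ (Fin 3)

/-- The fundamental solution `-1/(4 π |x|)` of the Laplacian on three-space (homogeneous of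
degree `-1`). -/
noncomputable def Phi (x : E3) : ℂ := ((-(4 * Real.pi * ‖x‖)⁻¹ : ℝ) : ℂ)

/-- The function is smooth. -/
def Smooth (φ : E3 → ℂ) : Prop := ContDiff ℝ ∞ φ

/-- The functional `F` is complex linear on the smooth functions. -/
def LinOnSmooth (F : (E3 → ℂ) → ℂ) : Prop :=
  (∀ φ ψ : E3 → ℂ, Smooth φ → Smooth ψ → F (φ + ψ) = F φ + F ψ) ∧
    ∀ (a : ℂ) (φ : E3 → ℂ), Smooth φ → F (a • φ) = a * F φ

/-- The functional `F` is bounded by finitely many derivatives on a compact set. -/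
def BddOnSmooth (F : (E3 → ℂ) → ℂ) : Prop :=
  ∃ (L : Set E3) (N : ℕ) (C : ℝ), IsCompact L ∧
    ∀ (φ : E3 → ℂ) (B : ℝ), Smooth φ →
      (∀ j ≤ N, ∀ x ∈ L, ‖iteratedFDeriv ℝ j φ x‖ ≤ B) → ‖F φ‖ ≤ C * B

/-- A complex distribution with compact support on three-space, as a continuous linear functional
on the smooth functions (only the values of `toFun` on smooth functions matter). -/
structure CDist where
  /-- the functional -/
  toFun : (E3 → ℂ) → ℂ
  lin : LinOnSmooth toFun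
  bdd : BddOnSmooth toFun

/-- The support of the distribution `T` is a compact subset of `σ`. -/
def CDist.SuppIn (T : CDist) (σ : Set E3) : Prop :=
  ∃ L : Set E3, IsCompact L ∧ L ⊆ σ ∧
    ∀ φ : E3 → ℂ, Smooth φ → (∀ᶠ x in 𝓝ˢ L, φ x = 0) → T.toFun φ = 0

/-- The convolution of `Φ` with a function. -/
noncomputable def PhiConv (φ : E3 → ℂ) (x : E3) : ℂ := ∫ y, Phi (x - y) * φ y

/-- The convolution `Φ * T` is the function `F`. (The kernel `Φ` is even.) -/
def CDist.ConvEq (T : CDist) (F : E3 → ℂ) : Prop :=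
  ∀ φ : E3 → ℂ, Smooth φ → HasCompactSupport φ → T.toFun (PhiConv φ) = ∫ y, F y * φ y

/-- The function `F` is in `L^q(K)`. -/
def MemLq (q : ℝ≥0∞) (K : Set E3) (F : E3 → ℂ) : Prop := MemLp F q (volume.restrict K)

/-- The norm of `F` in `L^q(K)`. -/
noncomputable def LqNorm (q : ℝ≥0∞) (K : Set E3) (F : E3 → ℂ) : ℝ≥0∞ :=
  eLpNorm F q (volume.restrict K)

/-- `F = G` almost everywhere on `K`. -/
def AEEqOn (K : Set E3) (F G : E3 → ℂ) : Prop := F =ᵐ[volume.restrict K] G

/-- The space of functions which are locally in `L^q`. -/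
def LqLoc (q : ℝ≥0∞) (F : E3 → ℂ) : Prop := ∀ L : Set E3, IsCompact L → MemLq q L F

/-- The closure of the smooth functions in the space of functions locally in `L^q`. -/
def LqLocTilde (q : ℝ≥0∞) (F : E3 → ℂ) : Prop :=
  LqLoc q F ∧ ∀ L : Set E3, IsCompact L → ∀ ε : ℝ≥0∞, 0 < ε →
    ∃ g : E3 → ℂ, Smooth g ∧ LqNorm q L (F - g) < ε

/-- The capacity `c(σ)`. -/
noncomputable def cap (q : ℝ≥0∞) (σ : Set E3) : ℝ≥0∞ :=
  ⨆ (T : CDist) (F : E3 → ℂ) (_ : T.SuppIn σ) (_ : T.ConvEq F) (_ : LqLoc q F)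
    (_ : LqNorm q univ F ≤ 1), ‖T.toFun (fun _ => 1)‖ₑ

/-- The capacity `c̃(σ)`. -/
noncomputable def capTilde (q : ℝ≥0∞) (σ : Set E3) : ℝ≥0∞ :=
  ⨆ (T : CDist) (F : E3 → ℂ) (_ : T.SuppIn σ) (_ : T.ConvEq F) (_ : LqLocTilde q F)
    (_ : LqNorm q univ F ≤ 1), ‖T.toFun (fun _ => 1)‖ₑ

/-- Condition (3). -/
def Cond3 (q : ℝ≥0∞) (K : Set E3) : Prop :=
  ∀ x ∈ frontier K, 0 < liminf (fun δ : ℝ =>
    cap q (Metric.ball x δ \ K) / capTilde q (Metric.ball x δ \ interior K)) (𝓝[>] 0)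

/-- `u` is (smooth and) harmonic on some open neighbourhood of `σ`, that is `u ∈ S(σ)`. -/
def Sol (σ : Set E3) (u : E3 → ℂ) : Prop :=
  ∃ V : Set E3, IsOpen V ∧ σ ⊆ V ∧ ContDiffOn ℝ ∞ u V ∧ ∀ x ∈ V, (Δ u) x = 0

/-- The class of `f` belongs to the closure of (the image of) `S(K)` in `L^q(K)`. -/
def InClosureSol (q : ℝ≥0∞) (K : Set E3) (f : E3 → ℂ) : Prop :=
  ∀ ε : ℝ≥0∞, 0 < ε → ∃ u : E3 → ℂ, Sol K u ∧ LqNorm q K (f - u) < ε

/-- On the interior of `K` the function `f` is almost everywhere equal to a member of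
`S(int K)`. -/
def SolInt (K : Set E3) (f : E3 → ℂ) : Prop :=
  ∃ u : E3 → ℂ, Sol (interior K) u ∧ AEEqOn (interior K) f u

/-- On `K` the function `f` is almost everywhere equal to a function in the closure of the smooth
functions. -/
def TildeOn (q : ℝ≥0∞) (K : Set E3) (f : E3 → ℂ) : Prop :=
  ∃ g : E3 → ℂ, LqLocTilde q g ∧ AEEqOn K f g

/-- Condition (1): the closure of `S(K)` in `L^q(K)` consists of the elements of
`S(int K)` and of the closure of the smooth functions. -/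
def Cond1 (q : ℝ≥0∞) (K : Set E3) : Prop :=
  ∀ f : E3 → ℂ, MemLq q K f → (InClosureSol q K f ↔ SolInt K f ∧ TildeOn q K f)

end Pool.Agent.W797.Cap
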