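import Pool.Agent.W797.Cap.Key

/-! # Condition (1) fails -/

set_option autoImplicit false

open MeasureTheory Set Filter Topology Metric
open scoped InnerProductSpace ContDiff Laplacian ENNReal
open Pool.Agent.Helper486.TP

namespace Pool.Agent.W797.Cap

/-- the complex version of the function which is not approximable -/
noncomputable def F0 (x : E3) : ℂ := ((f0 x : ℝ) : ℂ)

theorem F0_meas : Measurable F0 := Complex.measurable_ofReal.comp f0_meas

theorem F0_norm (x : E3) : ‖F0 x‖ ≤ 1 := by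
  rw [F0, Complex.norm_real]
  exact f0_abs x

theorem F0_memLp (q : ℝ≥0∞) (L : Set E3) (hL : IsCompact L) : MemLp F0 q (volume.restrict L) := by
  have : IsFiniteMeasure (volume.restrict L) := ⟨by rw [Measure.restrict_apply_univ]; exact hL.measure_lt_top⟩
  exact MemLp.of_bound F0_meas.aestronglyMeasurable 1 (ae_of_all _ F0_norm)

theorem F0_tilde (q : ℝ≥0∞) (hq1 : 1 ≤ q) (hq' : q ≠ ⊤) : LqLocTilde q F0 := by
  refine ⟨fun L hL => F0_memLp q L hL, ?_⟩
  intro L hL ε hε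
  have : IsFiniteMeasure (volume.restrict L) := ⟨by rw [Measure.restrict_apply_univ]; exact hL.measure_lt_top⟩
  obtain ⟨r, hr0, hr1, hr2⟩ := ENNReal.lt_iff_exists_real_btwn.1 hε
  have hr : 0 < r := ENNReal.ofReal_pos.1 hr1
  obtain ⟨g, -, hg, hgn⟩ := (F0_memLp q L hL).exist_eLpNorm_sub_le hq' hq1 hr
  exact ⟨g, hg, hgn.trans_lt hr2⟩

theorem F0_const (x : E3) (hx : x 0 ≠ 0) : ∃ c : ℂ, F0 =ᶠ[𝓝 x] fun _ => c := by
  rcases lt_or_gt_of_ne hx with h | h
  · refine ⟨0, ?_⟩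
    filter_upwards [(ccont 0).continuousAt.eventually (gt_mem_nhds h)] with y hy
    rw [F0, f0, if_neg (not_lt.2 hy.le)]
    simp
  · refine ⟨1, ?_⟩
    filter_upwards [(ccont 0).continuousAt.eventually (lt_mem_nhds h)] with y hy
    rw [F0, f0, if_pos hy]
    simp

theorem F0_sol : Sol (interior KK) F0 := by
  refine ⟨interior KK, isOpen_interior, subset_rfl, ?_, ?_⟩
  · intro x hx
    obtain ⟨c, hc⟩ := F0_const x (plane_interior x hx)
    exact (contDiffAt_const.congr_of_eventuallyEq hc).contDiffWithinAt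
  · intro x hx
    obtain ⟨c, hc⟩ := F0_const x (plane_interior x hx)
    rw [(InnerProductSpace.laplacian_congr_nhds hc).eq_of_nhds]
    simp

theorem not_cond1 (q : ℝ≥0∞) (hq : 3 < q) (hq' : q ≠ ⊤) : ¬ Cond1 q KK := by
  intro hC
  have hq1 : 1 ≤ q := le_trans (by norm_num) hq.le
  obtain ⟨p, hpq, hpt, hp0, hpr, hq3⟩ := conj_facts q hq hq'
  have hp1 : 1 ≤ p := hpq.symm.one_le
  have hpe : 1 / 2 < (1 / p).toReal := by
    rw [hpr]
    have : (q.toReal)⁻¹ < 3⁻¹ := by
      apply inv_strictAnti₀ (by norm_num) hq3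
    linarith
  obtain ⟨M, hM, hMJ⟩ := wJ_norm p hp1 hpe
  have hmem := F0_memLp q KK KK_compact
  have hfin : InClosureSol q KK F0 :=
    (hC F0 hmem).2 ⟨⟨F0, F0_sol, ae_eq_rfl⟩, ⟨F0, F0_tilde q hq1 hq', ae_eq_rfl⟩⟩
  set ε : ℝ := B0 * B0 / (2 * (M.toReal + 1)) with hε
  have hM0 : 0 ≤ M.toReal := ENNReal.toReal_nonneg
  have hB := B0_pos
  have hε0 : 0 < ε := by positivity
  obtain ⟨u, ⟨V, hV, hKV, hus, hul⟩, hfv⟩ := hfin (ENNReal.ofReal ε) (ENNReal.ofReal_pos.2 hε0)
  have h1 : eLpNorm (fun x => F0 x - u x) q (volume.restrict KK) < ENNReal.ofReal ε := hfv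
  set ur : E3 → ℝ := fun x => (u x).re with hur
  have h2 : eLpNorm (fun x => f0 x - ur x) q (volume.restrict KK) < ENNReal.ofReal ε := by
    refine lt_of_le_of_lt (eLpNorm_mono fun x => ?_) h1
    have : f0 x - ur x = (F0 x - u x).re := by
      rw [hur, F0]
      simp
    rw [this, Real.norm_eq_abs]
    exact Complex.abs_re_le_norm _
  have hurs : ContDiffOn ℝ ∞ ur V := Complex.reCLM.contDiff.comp_contDiffOn hus
  have hurl : ∀ x ∈ V, (Δ ur) x = 0 := by
    intro x hx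
    have h3 : ContDiffAt ℝ 2 u x := (hus.contDiffAt (hV.mem_nhds hx)).of_le (by exact_mod_cast two_le_infty)
    have h4 : (Δ (Complex.reCLM ∘ u)) x = (Complex.reCLM ∘ (Δ u)) x := h3.laplacian_CLM_comp_left
    have h5 : ur = Complex.reCLM ∘ u := rfl
    rw [h5, h4, Function.comp_apply, hul x hx]
    simp
  have hN := (h2.trans ENNReal.ofReal_lt_top).ne
  have h6 := key q p hpq M hM hMJ ur V hV hKV hurs hurl hN
  have h7 : (eLpNorm (fun x => f0 x - ur x) q (volume.restrict KK)).toReal ≤ ε :=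
    ENNReal.toReal_le_of_le_ofReal hε0.le h2.le
  have h8 : (eLpNorm (fun x => f0 x - ur x) q (volume.restrict KK)).toReal * M.toReal ≤ ε * (M.toReal + 1) := by
    gcongr
    linarith
  have h9 : ε * (M.toReal + 1) = B0 * B0 / 2 := by
    rw [hε]
    field_simp
  have h10 : 0 < B0 * B0 := by positivity
  linarith

/-- Main theorem. -/
theorem main : ∃ K : Set E3, IsCompact K ∧ volume (frontier K) = 0 ∧
    ∀ q : ℝ≥0∞, 3 < q → q ≠ ⊤ → Cond3 q K ∧ ¬ Cond1 q K :=
  ⟨KK, KK_compact, frontier_null, fun q hq hq' => ⟨cond3_KK q hq hq', not_cond1 q hq hq'⟩⟩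

end Pool.Agent.W797.Cap
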