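import Pool.Agent.W797.Cap.Lower

/-! # The compact set and condition (3) -/

set_option autoImplicit false

open MeasureTheory Set Filter Topology Metric
open scoped ENNReal

namespace Pool.Agent.W797.Cap

/-- the scales -/
noncomputable def hh (k : ℕ) : ℝ := (1 / 2) ^ (k + 1)

theorem hh_pos (k : ℕ) : 0 < hh k := by unfold hh; positivity

theorem hh_le (k : ℕ) : hh k ≤ 1 / 2 := by
  unfold hh
  calc ((1 : ℝ) / 2) ^ (k + 1) ≤ (1 / 2) ^ 1 := pow_le_pow_of_le_one (by norm_num) (by norm_num) (by omega)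
    _ = 1 / 2 := by norm_num

theorem hh_lt {j k : ℕ} (h : j < k) : hh k ≤ hh j / 2 := by
  unfold hh
  calc ((1 : ℝ) / 2) ^ (k + 1) ≤ (1 / 2) ^ (j + 1 + 1) :=
        pow_le_pow_of_le_one (by norm_num) (by norm_num) (by omega)
    _ = (1 / 2) ^ (j + 1) / 2 := by ring

theorem hh_tendsto : Tendsto hh atTop (𝓝 0) := by
  have h := tendsto_pow_atTop_nhds_zero_of_lt_one (r := (1 / 2 : ℝ)) (by norm_num) (by norm_num)
  exact (tendsto_add_atTop_iff_nat 1).2 h

/-- the positions -/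
noncomputable def zz (k : ℕ) : ℝ := TopologicalSpace.denseSeq ℝ (Nat.unpair k).1

theorem zz_dense (c ε : ℝ) (hε : 0 < ε) (N : ℕ) : ∃ k, N ≤ k ∧ |zz k - c| < ε := by
  obtain ⟨m, hm⟩ := (TopologicalSpace.denseRange_denseSeq ℝ).exists_dist_lt c hε
  refine ⟨Nat.pair m N, Nat.right_le_pair m N, ?_⟩
  unfold zz
  rw [Nat.unpair_pair, abs_sub_comm]
  exact hm

/-- the removed prisms -/
def UU (k : ℕ) : Set E3 := {x | |x 0 - hh k| < hh k / 8 ∧ |x 2 - zz k| < hh k / 8}

/-- the box -/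
def Box : Set E3 := {x | |x 0| ≤ 1 ∧ (0 ≤ x 1 ∧ x 1 ≤ 1) ∧ (0 ≤ x 2 ∧ x 2 ≤ 1)}

/-- the compact set -/
def KK : Set E3 := Box \ ⋃ k, UU k

theorem ccont (i : Fin 3) : Continuous (fun x : E3 => x i) := by fun_prop

theorem UU_open (k : ℕ) : IsOpen (UU k) := by
  unfold UU
  apply IsOpen.inter
  · exact isOpen_lt ((ccont 0).sub continuous_const).abs continuous_const
  · exact isOpen_lt ((ccont 2).sub continuous_const).abs continuous_const

theorem Box_closed : IsClosed Box := by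
  unfold Box
  refine IsClosed.inter (isClosed_le (ccont 0).abs continuous_const) (IsClosed.inter
    (IsClosed.inter (isClosed_le continuous_const (ccont 1)) (isClosed_le (ccont 1) continuous_const))
    (IsClosed.inter (isClosed_le continuous_const (ccont 2)) (isClosed_le (ccont 2) continuous_const)))

theorem KK_closed : IsClosed KK := Box_closed.sdiff (isOpen_iUnion UU_open)

theorem KK_compact : IsCompact KK := by
  apply Metric.isCompact_of_isClosed_isBounded KK_closed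
  apply (Metric.isBounded_closedBall (x := (0 : E3)) (r := 3)).subset
  intro x hx
  obtain ⟨⟨h0, ⟨h1, h1'⟩, ⟨h2, h2'⟩⟩, -⟩ := hx
  rw [mem_closedBall_zero_iff, EuclideanSpace.norm_eq, Real.sqrt_le_left (by norm_num), Fin.sum_univ_three]
  simp only [Real.norm_eq_abs, sq_abs]
  rw [abs_le] at h0
  nlinarith [h0.1, h0.2]

theorem UU_pos {k : ℕ} {x : E3} (hx : x ∈ UU k) : 7 / 8 * hh k < x 0 ∧ x 0 < 9 / 8 * hh k := by
  have := hx.1
  rw [abs_lt] at this
  constructor <;> linarith [this.1, this.2]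

theorem sg_coord (p : E3) (l s : ℝ) : (sg p l s) 0 = p 0 ∧ (sg p l s) 1 = p 1 + l * s ∧
    (sg p l s) 2 = p 2 := by
  refine ⟨?_, ?_, ?_⟩ <;> simp [sg, e2]

/-- From every point outside `K` starts a segment of any given length outside `K`. -/
theorem seg_out (y : E3) (hy : y ∉ KK) (l : ℝ) (hl : 0 < l) :
    ∃ p : E3, ∀ s ∈ Icc (0 : ℝ) 1, sg p l s ∉ KK ∧ dist (sg p l s) y ≤ l := by
  have hpy : ∀ s ∈ Icc (0 : ℝ) 1, dist (sg y l s) y ≤ l := by
    intro s hs
    rw [sg, dist_eq_norm, add_sub_cancel_left, norm_smul, e2_norm, mul_one, Real.norm_of_nonneg (mul_nonneg hl.le hs.1)]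
    nlinarith [hs.2]
  have hpy' : ∀ s ∈ Icc (0 : ℝ) 1, dist (sg (y - l • e2) l s) y ≤ l := by
    intro s hs
    have : sg (y - l • e2) l s - y = -((l * (1 - s)) • e2) := by
      rw [sg]
      module
    rw [dist_eq_norm, this, norm_neg, norm_smul, e2_norm, mul_one,
      Real.norm_of_nonneg (mul_nonneg hl.le (by linarith [hs.2]))]
    nlinarith [hs.1]
  have hc' : ∀ s, (sg (y - l • e2) l s) 1 = y 1 - l + l * s := by
    intro s
    rw [(sg_coord _ l s).2.1]
    simp [e2]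
  by_cases hU : y ∈ ⋃ k, UU k
  · refine ⟨y, fun s hs => ⟨fun hK => hK.2 ?_, hpy s hs⟩⟩
    obtain ⟨k, hk⟩ := mem_iUnion.1 hU
    refine mem_iUnion.2 ⟨k, ?_⟩
    obtain ⟨c0, c1, c2⟩ := sg_coord y l s
    unfold UU
    rw [mem_ofPred_eq, c0, c2]
    exact hk
  · have hB : y ∉ Box := fun h => hy ⟨h, hU⟩
    by_cases h1 : y 1 < 0
    · refine ⟨y - l • e2, fun s hs => ⟨fun hK => ?_, hpy' s hs⟩⟩
      have h2 := hK.1.2.1.1
      rw [hc' s] at h2
      nlinarith [hs.2]
    · refine ⟨y, fun s hs => ⟨fun hK => hB ?_, hpy s hs⟩⟩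
      obtain ⟨c0, c1, c2⟩ := sg_coord y l s
      obtain ⟨h3, ⟨h4, h5⟩, ⟨h6, h7⟩⟩ := hK.1
      rw [c0] at h3
      rw [c1] at h4 h5
      rw [c2] at h6 h7
      push Not at h1
      refine ⟨h3, ⟨h1, ?_⟩, ⟨h6, h7⟩⟩
      nlinarith [hs.1, mul_nonneg hl.le hs.1]

theorem cond3_KK (q : ℝ≥0∞) (hq : 3 < q) (hq' : q ≠ ⊤) : Cond3 q KK := by
  obtain ⟨M, hM, hup⟩ := cap_upper q hq hq'
  obtain ⟨a, ha, hlow⟩ := cap_lower q hq hq'
  set t : ℝ := 1 - 3 / q.toReal with ht
  intro x hx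
  have hcl : x ∈ closure KKᶜ := by
    rw [frontier_eq_closure_inter_closure] at hx
    exact hx.2
  have hpos : 0 < ENNReal.ofReal ((1 / 2) ^ t) * ENNReal.ofReal a / (M + 1) := by
    apply ENNReal.div_pos
    · apply (ENNReal.mul_pos _ _).ne'
      · rw [Ne, ENNReal.ofReal_eq_zero, not_le]; positivity
      · rw [Ne, ENNReal.ofReal_eq_zero, not_le]; exact ha
    · exact ENNReal.add_ne_top.2 ⟨hM, ENNReal.one_ne_top⟩
  refine lt_of_lt_of_le hpos (le_liminf_of_le (by isBoundedDefault) ?_)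
  filter_upwards [self_mem_nhdsWithin] with δ hδ
  have hδ' : 0 < δ := hδ
  obtain ⟨y, hy, hyx⟩ := Metric.mem_closure_iff.1 hcl (δ / 2) (by positivity)
  obtain ⟨p, hp⟩ := seg_out y hy (δ / 2) (by positivity)
  have h1 := hlow p (δ / 2) (ball x δ \ KK) (by positivity) (by
    intro s hs
    refine ⟨?_, (hp s hs).1⟩
    rw [mem_ball]
    calc dist (sg p (δ / 2) s) x ≤ dist (sg p (δ / 2) s) y + dist y x := dist_triangle _ _ _
      _ < δ / 2 + δ / 2 := by
          have := (hp s hs).2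
          rw [dist_comm y x]
          linarith
      _ = δ := by ring)
  have h2 := hup x δ (ball x δ \ interior KK) hδ' (fun z hz => ball_subset_closedBall hz.1)
  have h3 : capTilde q (ball x δ \ interior KK) ≤ ENNReal.ofReal (δ ^ t) * (M + 1) :=
    h2.trans (by gcongr; exact le_self_add)
  have h4 : ENNReal.ofReal ((δ / 2) ^ t) = ENNReal.ofReal (δ ^ t) * ENNReal.ofReal ((1 / 2) ^ t) := by
    rw [← ENNReal.ofReal_mul (by positivity), ← Real.mul_rpow (by positivity) (by positivity)]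
    congr 2
    ring
  have h5 : ENNReal.ofReal ((1 / 2) ^ t) * ENNReal.ofReal a / (M + 1)
      = (ENNReal.ofReal ((δ / 2) ^ t) * ENNReal.ofReal a) / (ENNReal.ofReal (δ ^ t) * (M + 1)) := by
    rw [h4, mul_assoc, ENNReal.mul_div_mul_left]
    · rw [Ne, ENNReal.ofReal_eq_zero, not_le]; positivity
    · exact ENNReal.ofReal_ne_top
  rw [h5]
  exact ENNReal.div_le_div h1 h3

/-! ### the interior and the frontier of `K` -/

theorem plane_interior (x : E3) (hx : x ∈ interior KK) : x 0 ≠ 0 := by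
  intro h0
  obtain ⟨ε, hε, hb⟩ := Metric.mem_nhds_iff.1 (mem_interior_iff_mem_nhds.1 hx)
  obtain ⟨N, hN⟩ := (hh_tendsto.eventually (gt_mem_nhds (show (0 : ℝ) < ε / 2 by positivity))).exists_forall_of_atTop
  obtain ⟨k, hk, hkz⟩ := zz_dense (x 2) (ε / 2) (by positivity) N
  have hhk := hN k hk
  set y : E3 := !₂[hh k, x 1, zz k] with hy
  have hyU : y ∈ UU k := by
    constructor
    · simp [hy, hh_pos k]
    · simp [hy, hh_pos k]
  have hyb : y ∈ ball x ε := by
    rw [mem_ball, EuclideanSpace.dist_eq, Fin.sum_univ_three]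
    rw [Real.sqrt_lt' hε]
    simp only [Real.dist_eq, sq_abs]
    have e0 : y 0 = hh k := rfl
    have e1 : y 1 = x 1 := rfl
    have e2 : y 2 = zz k := rfl
    rw [e0, e1, e2, h0]
    have p1 : (hh k - 0) ^ 2 < (ε / 2) ^ 2 := by
      rw [sub_zero]
      exact pow_lt_pow_left₀ hhk (hh_pos k).le (by norm_num)
    have p2 : (zz k - x 2) ^ 2 < (ε / 2) ^ 2 := by
      rw [← sq_abs (zz k - x 2)]
      exact pow_lt_pow_left₀ hkz (abs_nonneg _) (by norm_num)
    nlinarith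
  exact (hb hyb).2 (mem_iUnion.2 ⟨k, hyU⟩)

/-- a point of `K` off countably many coordinate planes is interior -/
theorem interior_of (x : E3) (hx : x ∈ KK) (h0 : x 0 ≠ 0) (h01 : x 0 ≠ 1) (h0m : x 0 ≠ -1)
    (h10 : x 1 ≠ 0) (h11 : x 1 ≠ 1) (h20 : x 2 ≠ 0) (h21 : x 2 ≠ 1)
    (hk0 : ∀ k, x 0 ≠ 7 / 8 * hh k) (hk1 : ∀ k, x 0 ≠ 9 / 8 * hh k)
    (hk2 : ∀ k, x 2 ≠ zz k - hh k / 8) (hk3 : ∀ k, x 2 ≠ zz k + hh k / 8) : x ∈ interior KK := by
  obtain ⟨⟨hb0, ⟨hb1, hb1'⟩, ⟨hb2, hb2'⟩⟩, hU⟩ := hx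
  rw [abs_le] at hb0
  have hBox : ∀ᶠ y : E3 in 𝓝 x, y ∈ Box := by
    have e1 : ∀ᶠ y : E3 in 𝓝 x, y 0 < 1 := (ccont 0).continuousAt.eventually (gt_mem_nhds (lt_of_le_of_ne hb0.2 h01))
    have e2 : ∀ᶠ y : E3 in 𝓝 x, -1 < y 0 := (ccont 0).continuousAt.eventually (lt_mem_nhds (lt_of_le_of_ne hb0.1 (Ne.symm h0m)))
    have e3 : ∀ᶠ y : E3 in 𝓝 x, y 1 < 1 := (ccont 1).continuousAt.eventually (gt_mem_nhds (lt_of_le_of_ne hb1' h11))
    have e4 : ∀ᶠ y : E3 in 𝓝 x, 0 < y 1 := (ccont 1).continuousAt.eventually (lt_mem_nhds (lt_of_le_of_ne hb1 (Ne.symm h10)))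
    have e5 : ∀ᶠ y : E3 in 𝓝 x, y 2 < 1 := (ccont 2).continuousAt.eventually (gt_mem_nhds (lt_of_le_of_ne hb2' h21))
    have e6 : ∀ᶠ y : E3 in 𝓝 x, 0 < y 2 := (ccont 2).continuousAt.eventually (lt_mem_nhds (lt_of_le_of_ne hb2 (Ne.symm h20)))
    filter_upwards [e1, e2, e3, e4, e5, e6] with y f1 f2 f3 f4 f5 f6
    refine ⟨abs_le.2 ⟨f2.le, f1.le⟩, ⟨f4.le, f3.le⟩, ⟨f6.le, f5.le⟩⟩
  have hUU : ∀ᶠ y : E3 in 𝓝 x, y ∉ ⋃ k, UU k := by
    rcases lt_or_gt_of_ne h0 with hneg | hpos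
    · have e1 : ∀ᶠ y : E3 in 𝓝 x, y 0 < 0 := (ccont 0).continuousAt.eventually (gt_mem_nhds hneg)
      filter_upwards [e1] with y f1 hy
      obtain ⟨k, hk⟩ := mem_iUnion.1 hy
      have := (UU_pos hk).1
      have := hh_pos k
      linarith
    · obtain ⟨N, hN⟩ := (hh_tendsto.eventually (gt_mem_nhds (show (0 : ℝ) < x 0 / 4 by positivity))).exists_forall_of_atTop
      have e1 : ∀ᶠ y : E3 in 𝓝 x, x 0 / 2 < y 0 := (ccont 0).continuousAt.eventually (lt_mem_nhds (by linarith))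
      have e2 : ∀ᶠ y : E3 in 𝓝 x, ∀ k ∈ Finset.range N, y ∉ UU k := by
        rw [Filter.eventually_all_finset]
        intro k _
        have hxk : x ∉ UU k := fun h => hU (mem_iUnion.2 ⟨k, h⟩)
        by_cases hc : |x 0 - hh k| < hh k / 8
        · have hc2 : ¬ |x 2 - zz k| < hh k / 8 := fun h => hxk ⟨hc, h⟩
          have hc3 : hh k / 8 < |x 2 - zz k| := by
            refine lt_of_le_of_ne (not_lt.1 hc2) ?_
            intro he
            rcases abs_choice (x 2 - zz k) with h | h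
            · rw [h] at he; exact hk3 k (by linarith)
            · rw [h] at he; exact hk2 k (by linarith)
          have e3 : ∀ᶠ y : E3 in 𝓝 x, hh k / 8 < |y 2 - zz k| :=
            (((ccont 2).sub continuous_const).abs).continuousAt.eventually (lt_mem_nhds hc3)
          filter_upwards [e3] with y f3 hy
          exact absurd hy.2 (not_lt.2 f3.le)
        · have hc3 : hh k / 8 < |x 0 - hh k| := by
            refine lt_of_le_of_ne (not_lt.1 hc) ?_
            intro he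
            rcases abs_choice (x 0 - hh k) with h | h
            · rw [h] at he; exact hk1 k (by linarith)
            · rw [h] at he; exact hk0 k (by linarith)
          have e3 : ∀ᶠ y : E3 in 𝓝 x, hh k / 8 < |y 0 - hh k| :=
            (((ccont 0).sub continuous_const).abs).continuousAt.eventually (lt_mem_nhds hc3)
          filter_upwards [e3] with y f3 hy
          exact absurd hy.1 (not_lt.2 f3.le)
      filter_upwards [e1, e2] with y f1 f2 hy
      obtain ⟨k, hk⟩ := mem_iUnion.1 hy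
      by_cases hkN : k < N
      · exact f2 k (Finset.mem_range.2 hkN) hk
      · have := hN k (not_lt.1 hkN)
        have := (UU_pos hk).2
        linarith
  rw [mem_interior_iff_mem_nhds]
  filter_upwards [hBox, hUU] with y f1 f2
  exact ⟨f1, f2⟩

theorem coord_ae_ne (i : Fin 3) (c : ℝ) : ∀ᵐ z : E3, z i ≠ c := by
  have h := coord_ne i
  have hmp : MeasurePreserving (fun y : E3 => y - EuclideanSpace.single i c) volume volume :=
    measurePreserving_sub_right volume _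
  have h2 := hmp.quasiMeasurePreserving.ae h
  filter_upwards [h2] with z hz hc
  apply hz
  simp [hc]

theorem frontier_null : volume (frontier KK) = 0 := by
  have h : ∀ᵐ x : E3, x ∉ frontier KK := by
    filter_upwards [coord_ae_ne 0 0, coord_ae_ne 0 1, coord_ae_ne 0 (-1), coord_ae_ne 1 0,
      coord_ae_ne 1 1, coord_ae_ne 2 0, coord_ae_ne 2 1, ae_all_iff.2 (fun k => coord_ae_ne 0 (7 / 8 * hh k)),
      ae_all_iff.2 (fun k => coord_ae_ne 0 (9 / 8 * hh k)), ae_all_iff.2 (fun k => coord_ae_ne 2 (zz k - hh k / 8)),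
      ae_all_iff.2 (fun k => coord_ae_ne 2 (zz k + hh k / 8))] with x a1 a2 a3 a4 a5 a6 a7 a8 a9 a10 a11 hx
    rw [KK_closed.frontier_eq] at hx
    exact hx.2 (interior_of x hx.1 a1 a2 a3 a4 a5 a6 a7 a8 a9 a10 a11)
  rw [ae_iff] at h
  simpa using h

end Pool.Agent.W797.Cap
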