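import Pool.Agent.W797.Cap.WNorm

/-! # The key inequality -/

set_option autoImplicit false

open MeasureTheory Set Filter Topology Metric
open scoped InnerProductSpace ContDiff Laplacian ENNReal
open Pool.Agent.Helper486.TP

namespace Pool.Agent.W797.Cap

/-- the function which is not approximable -/
noncomputable def f0 (x : E3) : ℝ := if 0 < x 0 then 1 else 0

theorem f0_meas : Measurable f0 := Measurable.ite half_meas measurable_const measurable_const

theorem f0_abs (x : E3) : |f0 x| ≤ 1 := by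
  unfold f0
  split_ifs <;> simp

theorem green2 (f φ : E3 → ℝ) (hf : ContDiff ℝ ∞ f) (hφ : ContDiff ℝ ∞ φ) (hs : HasCompactSupport φ) :
    ∫ y, f y * (Δ φ) y = ∫ y, (Δ f) y * φ y := by
  have hD : ∀ {ψ : E3 → ℝ}, ContDiff ℝ ∞ ψ → ∀ v : E3, ContDiff ℝ ∞ (fun z => fderiv ℝ ψ z v) := by
    intro ψ h v
    exact (h.fderiv_right (m := ∞) (by norm_cast)).clm_apply contDiff_const
  simp_rw [nl_lap_eq hf, nl_lap_eq hφ, Finset.mul_sum, Finset.sum_mul]
  rw [integral_finsetSum, integral_finsetSum]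
  · apply Finset.sum_congr rfl
    intro i _
    set v := EuclideanSpace.basisFun (Fin 3) ℝ i
    rw [int_parts f (fun z => fderiv ℝ φ z v) (hf.of_le (by norm_cast)) ((hD hφ v).of_le (by norm_cast)) (hs.fderiv_apply (𝕜 := ℝ) v) v]
    rw [int_parts (fun z => fderiv ℝ f z v) φ ((hD hf v).of_le (by norm_cast)) (hφ.of_le (by norm_cast)) hs v]
    ring
  · intro i _
    refine Continuous.integrable_of_hasCompactSupport ?_ (hs.mul_left)
    exact (hD (hD hf _) _).continuous.mul hφ.continuous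
  · intro i _
    refine Continuous.integrable_of_hasCompactSupport ?_ (HasCompactSupport.mul_left ?_)
    · exact hf.continuous.mul (hD (hD hφ _) _).continuous
    · exact (hs.fderiv_apply (𝕜 := ℝ) _).fderiv_apply (𝕜 := ℝ) _

theorem lap_congr_open {φ ψ : E3 → ℝ} {O : Set E3} (hO : IsOpen O) {x : E3} (hx : x ∈ O)
    (h : ∀ y ∈ O, φ y = ψ y) : (Δ φ) x = (Δ ψ) x := by
  have h1 : φ =ᶠ[𝓝 x] ψ := by
    filter_upwards [hO.mem_nhds hx] with y hy
    exact h y hy
  exact (InnerProductSpace.laplacian_congr_nhds h1).eq_of_nhds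

theorem lap_zero_fun (x : E3) : (Δ (fun _ : E3 => (0 : ℝ))) x = 0 := by simp

/-- outside `K` the Laplacian of `wJ` is dominated by that of `w` and eventually zero -/
theorem lap_out (J : ℕ) (x : E3) (hx : x ∉ KK) : |(Δ (wJ J)) x| ≤ |(Δ w) x| := by
  by_cases hU : x ∈ ⋃ k, UU k
  · obtain ⟨k, hk⟩ := mem_iUnion.1 hU
    by_cases hkJ : k < J
    · rw [lap_congr_open (UU_open k) hk (fun y hy => wJ_zero hkJ hy : ∀ y ∈ UU k, wJ J y = (fun _ => (0 : ℝ)) y), lap_zero_fun]
      simp
    · rw [lap_congr_open (UU_open k) hk (fun y hy => wJ_eq (not_lt.1 hkJ) hy)]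
  · have hB : x ∉ Box := fun h => hx ⟨h, hU⟩
    have : (Δ (wJ J)) x = 0 := lap_supp (wJ_cd J) (wJ_cs J) x (fun h => hB (w_supp_box (wJ_tsupp J h).1))
    rw [this]
    simp

theorem lap_out_ev (x : E3) (hx : x ∉ KK) : ∀ᶠ J in atTop, (Δ (wJ J)) x = 0 := by
  by_cases hU : x ∈ ⋃ k, UU k
  · obtain ⟨k, hk⟩ := mem_iUnion.1 hU
    filter_upwards [eventually_gt_atTop k] with J hkJ
    rw [lap_congr_open (UU_open k) hk (fun y hy => wJ_zero hkJ hy : ∀ y ∈ UU k, wJ J y = (fun _ => (0 : ℝ)) y), lap_zero_fun]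
  · have hB : x ∉ Box := fun h => hx ⟨h, hU⟩
    exact Eventually.of_forall fun J => lap_supp (wJ_cd J) (wJ_cs J) x (fun h => hB (w_supp_box (wJ_tsupp J h).1))

theorem key (q p : ℝ≥0∞) (hpq : ENNReal.HolderConjugate q p) (M : ℝ≥0∞) (hM : M ≠ ⊤)
    (hMJ : ∀ J, eLpNorm (Δ (wJ J)) p volume ≤ M) (u : E3 → ℝ) (V : Set E3) (hV : IsOpen V) (hKV : KK ⊆ V)
    (hu : ContDiffOn ℝ ∞ u V) (hlap : ∀ x ∈ V, (Δ u) x = 0)
    (hN : eLpNorm (fun x => f0 x - u x) q (volume.restrict KK) ≠ ⊤) :
    B0 * B0 ≤ (eLpNorm (fun x => f0 x - u x) q (volume.restrict KK)).toReal * M.toReal := by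
  -- compactness
  obtain ⟨J0, hJ0⟩ : ∃ J0 : ℕ, tsupport w ⊆ V ∪ ⋃ k ∈ Finset.range J0, UU k := by
    apply IsCompact.elim_directed_cover w_cs (fun J : ℕ => V ∪ ⋃ k ∈ Finset.range J, UU k)
    · intro J
      exact hV.union (isOpen_biUnion fun k _ => UU_open k)
    · intro x hx
      by_cases hU : x ∈ ⋃ k, UU k
      · obtain ⟨k, hk⟩ := mem_iUnion.1 hU
        refine mem_iUnion.2 ⟨k + 1, Or.inr ?_⟩
        exact mem_biUnion (Finset.mem_coe.2 (Finset.mem_range.2 (Nat.lt_succ_self k))) hk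
      · exact mem_iUnion.2 ⟨0, Or.inl (hKV ⟨w_supp_box hx, hU⟩)⟩
    · apply Monotone.directed_le
      intro J J' hJJ'
      apply union_subset_union_right
      apply biUnion_subset_biUnion_left
      intro k hk
      exact Finset.mem_range.2 (lt_of_lt_of_le (Finset.mem_range.1 hk) hJJ')
  set C : Set E3 := tsupport w \ ⋃ k ∈ Finset.range J0, UU k with hC
  have hCc : IsCompact C := by
    have : IsCompact (tsupport w) := w_cs
    exact this.diff (isOpen_biUnion fun k _ => UU_open k)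
  have hCV : C ⊆ V := by
    intro x hx
    rcases hJ0 hx.1 with h | h
    · exact h
    · exact absurd h hx.2
  have hwC : ∀ J, J0 ≤ J → tsupport (wJ J) ⊆ C := by
    intro J hJ x hx
    obtain ⟨h1, h2⟩ := wJ_tsupp J hx
    refine ⟨h1, fun h3 => h2 ?_⟩
    simp only [mem_iUnion] at h3 ⊢
    obtain ⟨k, hk, hkx⟩ := h3
    exact ⟨k, Finset.mem_range.2 (lt_of_lt_of_le (Finset.mem_range.1 hk) hJ), hkx⟩
  -- cutoff
  obtain ⟨L, hLc, hCL, hLV⟩ := exists_compact_between hCc hV hCV
  obtain ⟨L', hLc', hLL', hLV'⟩ := exists_compact_between hLc hV hLV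
  obtain ⟨ζ, hζs, hζ0, hζ1, -⟩ := exists_cutoff (n := 3) (s := (interior L')ᶜ) (t := L)
    isOpen_interior.isClosed_compl hLc.isClosed (by
      rw [Set.disjoint_left]
      intro x hx hxL
      exact hx (hLL' hxL))
  set v : E3 → ℝ := fun x => ζ x * u x with hv
  have hvs : ContDiff ℝ ∞ v := by
    rw [contDiff_iff_contDiffAt]
    intro x
    by_cases hx : x ∈ V
    · exact hζs.contDiffAt.mul (hu.contDiffAt (hV.mem_nhds hx))
    · have hx' : x ∈ (L')ᶜ := fun h => hx (hLV' h)
      have h0 : v =ᶠ[𝓝 x] fun _ => (0 : ℝ) := by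
        filter_upwards [hLc'.isClosed.isOpen_compl.mem_nhds hx'] with y hy
        rw [hv]
        simp only
        rw [hζ0 y (fun h => hy (interior_subset h)), zero_mul]
      exact contDiffAt_const.congr_of_eventuallyEq h0
  have hvc : HasCompactSupport v := by
    apply HasCompactSupport.intro hLc'
    intro x hx
    rw [hv]
    simp only
    rw [hζ0 x (fun h => hx (interior_subset h)), zero_mul]
  have hvu : ∀ x ∈ L, v x = u x := by
    intro x hx
    rw [hv]
    simp only
    rw [hζ1 x hx, one_mul]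
  obtain ⟨Mv, hMv⟩ := hvc.exists_bound_of_continuous hvs.continuous
  -- Green
  have hgreen : ∀ J, J0 ≤ J → ∫ x, v x * (Δ (wJ J)) x = 0 := by
    intro J hJ
    rw [green2 v (wJ J) hvs (wJ_cd J) (wJ_cs J)]
    have : ∀ x, (Δ v) x * wJ J x = 0 := by
      intro x
      by_cases hx : wJ J x = 0
      · rw [hx, mul_zero]
      · have hxC : x ∈ C := hwC J hJ (subset_tsupport _ hx)
        have hxL : x ∈ interior L := hCL hxC
        rw [lap_congr_open isOpen_interior hxL (fun y hy => hvu y (interior_subset hy)), hlap x (hCV hxC), zero_mul]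
    simp [this]
  have hfi : ∀ J, Integrable (fun x => f0 x * (Δ (wJ J)) x) := by
    intro J
    have := half_int (wJ_cd J) (wJ_cs J)
    refine this.congr (ae_of_all _ fun x => ?_)
    simp only [f0]
    split_ifs <;> simp
  have hvi : ∀ J, Integrable (fun x => v x * (Δ (wJ J)) x) := by
    intro J
    exact (hvs.continuous.mul (lap_continuous (wJ_cd J))).integrable_of_hasCompactSupport hvc.mul_right
  have hf : ∀ J, ∫ x, f0 x * (Δ (wJ J)) x = -(B0 * B0) := by
    intro J
    rw [← half_wJ J]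
    congr 1
    ext x
    simp only [f0]
    split_ifs <;> simp
  have htot : ∀ J, J0 ≤ J → ∫ x, (f0 x - v x) * (Δ (wJ J)) x = -(B0 * B0) := by
    intro J hJ
    have : ∀ x, (f0 x - v x) * (Δ (wJ J)) x = f0 x * (Δ (wJ J)) x - v x * (Δ (wJ J)) x := fun x => by ring
    simp_rw [this]
    rw [integral_sub (hfi J) (hvi J), hf J, hgreen J hJ, sub_zero]
  have hti : ∀ J, Integrable (fun x => (f0 x - v x) * (Δ (wJ J)) x) := by
    intro J
    refine ((hfi J).sub (hvi J)).congr (ae_of_all _ fun x => ?_)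
    simp only [Pi.sub_apply]
    ring
  have hKm : MeasurableSet KK := KK_closed.measurableSet
  -- inside
  set N := (eLpNorm (fun x => f0 x - u x) q (volume.restrict KK)) with hNdef
  have hin : ∀ J, J0 ≤ J → |∫ x in KK, (f0 x - v x) * (Δ (wJ J)) x| ≤ N.toReal * M.toReal := by
    intro J hJ
    have h1 : ∫ x in KK, (f0 x - v x) * (Δ (wJ J)) x = ∫ x in KK, (f0 x - u x) * (Δ (wJ J)) x := by
      apply setIntegral_congr_fun hKm
      intro x _
      by_cases hx : (Δ (wJ J)) x = 0
      · simp only [hx, mul_zero]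
      · have hxs : x ∈ tsupport (wJ J) := by
          by_contra h
          exact hx (lap_supp (wJ_cd J) (wJ_cs J) x h)
        have hxL : x ∈ L := interior_subset (hCL (hwC J hJ hxs))
        simp only [hvu x hxL]
    rw [h1, ← ENNReal.toReal_mul, ← Real.norm_eq_abs, ← toReal_enorm]
    apply ENNReal.toReal_mono (ENNReal.mul_ne_top hN hM)
    have hm1 : AEStronglyMeasurable (fun x => f0 x - u x) (volume.restrict KK) := by
      apply f0_meas.aestronglyMeasurable.sub
      exact (hu.continuousOn.mono hKV).aestronglyMeasurable hKm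
    have hm2 : AEStronglyMeasurable (Δ (wJ J)) (volume.restrict KK) :=
      (lap_continuous (wJ_cd J)).aestronglyMeasurable
    calc ‖∫ x in KK, (f0 x - u x) * (Δ (wJ J)) x‖ₑ
        ≤ ∫⁻ x in KK, ‖(f0 x - u x) * (Δ (wJ J)) x‖ₑ := enorm_integral_le_lintegral_enorm _
      _ = eLpNorm ((fun x => f0 x - u x) • (Δ (wJ J))) 1 (volume.restrict KK) := by
          rw [eLpNorm_one_eq_lintegral_enorm]; rfl
      _ ≤ N * eLpNorm (Δ (wJ J)) p (volume.restrict KK) := eLpNorm_smul_le_mul_eLpNorm hm2 hm1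
      _ ≤ N * M := by
          gcongr
          exact (eLpNorm_mono_measure _ Measure.restrict_le_self).trans (hMJ J)
  -- outside
  have hout : Tendsto (fun J => ∫ x in KKᶜ, (f0 x - v x) * (Δ (wJ J)) x) atTop (𝓝 (∫ x in KKᶜ, (0 : ℝ))) := by
    apply tendsto_integral_of_dominated_convergence (fun x => (1 + Mv) * |(Δ w) x|)
    · intro J
      exact (hti J).aestronglyMeasurable.restrict
    · exact ((lap_int w_cd w_cs).abs.const_mul _).restrict
    · intro J
      refine (ae_restrict_iff' hKm.compl).2 (ae_of_all _ fun x hx => ?_)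
      rw [norm_mul, Real.norm_eq_abs, Real.norm_eq_abs]
      apply mul_le_mul _ (lap_out J x hx) (abs_nonneg _) _
      · calc |f0 x - v x| ≤ |f0 x| + |v x| := abs_sub _ _
          _ ≤ 1 + Mv := add_le_add (f0_abs x) (hMv x)
      · have := (abs_nonneg (v x)).trans (hMv x)
        linarith
    · refine (ae_restrict_iff' hKm.compl).2 (ae_of_all _ fun x hx => ?_)
      apply tendsto_const_nhds.congr'
      filter_upwards [lap_out_ev x hx] with J hJ
      rw [hJ, mul_zero]
  rw [integral_zero] at hout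
  have hlim : Tendsto (fun J => N.toReal * M.toReal + |∫ x in KKᶜ, (f0 x - v x) * (Δ (wJ J)) x|) atTop
      (𝓝 (N.toReal * M.toReal + |0|)) := hout.abs.const_add _
  rw [abs_zero, add_zero] at hlim
  refine ge_of_tendsto hlim ?_
  filter_upwards [eventually_ge_atTop J0] with J hJ
  have h2 := integral_add_compl hKm (hti J)
  rw [htot J hJ] at h2
  have h3 := hin J hJ
  have h4 : B0 * B0 = -(∫ x in KK, (f0 x - v x) * (Δ (wJ J)) x) + -(∫ x in KKᶜ, (f0 x - v x) * (Δ (wJ J)) x) := by
    linarith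
  rw [h4]
  apply add_le_add
  · exact (neg_le_abs _).trans h3
  · exact neg_le_abs _

end Pool.Agent.W797.Cap
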