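import Pool.Agent.W797.Cap.Newton

/-! # The potential of a unit segment lies in `L^q` for `q > 3` -/

set_option autoImplicit false

open MeasureTheory Set Filter Topology Metric
open scoped InnerProductSpace ContDiff Laplacian ENNReal
open Pool.Agent.Helper486.TP

namespace Pool.Agent.W797.Cap

/-- the middle unit vector -/
noncomputable def e2 : E3 := EuclideanSpace.single 1 1

/-- the potential of the unit segment -/
noncomputable def G (z : E3) : ℂ := ∫ s in (0 : ℝ)..1, Phi (s • e2 - z)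

theorem e2_norm : ‖e2‖ = 1 := by simp [e2]

theorem seg_coord (s : ℝ) (z : E3) : (s • e2 - z) 0 = - z 0 ∧ (s • e2 - z) 1 = s - z 1 ∧
    (s • e2 - z) 2 = - z 2 := by
  refine ⟨?_, ?_, ?_⟩ <;> simp [e2]

theorem coord_le_norm (z : E3) (i : Fin 3) : |z i| ≤ ‖z‖ := by
  have := PiLp.norm_apply_le z i
  simpa using this

theorem G_meas : StronglyMeasurable G := by
  have h : StronglyMeasurable (Function.uncurry fun (z : E3) (s : ℝ) => Phi (s • e2 - z)) := by
    apply Measurable.stronglyMeasurable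
    apply Phi_measurable.comp
    exact ((measurable_snd.smul_const e2).sub measurable_fst)
  have h2 := h.integral_prod_right (ν := volume.restrict (Ioc (0 : ℝ) 1))
  have : G = fun x => ∫ y, Phi (y • e2 - x) ∂volume.restrict (Ioc (0 : ℝ) 1) := by
    ext x
    rw [G, intervalIntegral.integral_of_le zero_le_one]
  rw [this]
  exact h2

/-- the constant in the one-dimensional integral -/
noncomputable def C1 (θ : ℝ) : ℝ≥0∞ :=
  (∫⁻ u in ball (0 : ℝ) 1, ENNReal.ofReal (|u| ^ (-(1 - θ)))) + 1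

theorem C1_ne_top (θ : ℝ) (h0 : 0 < θ) : C1 θ ≠ ⊤ := by
  unfold C1
  apply ENNReal.add_ne_top.2 ⟨?_, ENNReal.one_ne_top⟩
  have h1 : IntegrableOn (fun u : ℝ => |u| ^ (-(1 - θ))) (ball 0 1) := by
    refine integrableOn_ball_of_norm_le_rpow (μ := (volume : Measure ℝ)) (C := 1)
      (α := 1 - θ) (by simp) (by simp; linarith) ?_ ?_
    · refine ae_of_all _ (fun x => ?_)
      rw [one_mul, Real.norm_of_nonneg (by positivity), Real.norm_eq_abs]
    · exact (measurable_norm.pow_const _).aestronglyMeasurable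
  have h3 := h1.2
  rw [hasFiniteIntegral_iff_ofReal (ae_of_all _ (fun y => by positivity))] at h3
  exact h3.ne

theorem one_dim (θ : ℝ) (h1 : θ < 1) (a : ℝ) :
    ∫⁻ s in Ioc (0 : ℝ) 1, ENNReal.ofReal (|s - a| ^ (-(1 - θ))) ≤ C1 θ := by
  have hsplit : ∀ s : ℝ, ENNReal.ofReal (|s - a| ^ (-(1 - θ)))
      ≤ (ball a 1).indicator (fun s => ENNReal.ofReal (|s - a| ^ (-(1 - θ)))) s + 1 := by
    intro s
    by_cases hs : s ∈ ball a 1
    · rw [indicator_of_mem hs]
      exact le_self_add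
    · rw [indicator_of_notMem hs, zero_add, ← ENNReal.ofReal_one]
      apply ENNReal.ofReal_le_ofReal
      rw [mem_ball, not_lt, Real.dist_eq] at hs
      exact Real.rpow_le_one_of_one_le_of_nonpos hs (by linarith)
  have hmeas : Measurable fun s : ℝ => ENNReal.ofReal (|s - a| ^ (-(1 - θ))) := by
    apply Measurable.ennreal_ofReal
    exact ((measurable_id.sub_const a).norm.pow_const _)
  calc ∫⁻ s in Ioc (0 : ℝ) 1, ENNReal.ofReal (|s - a| ^ (-(1 - θ)))
      ≤ ∫⁻ s in Ioc (0 : ℝ) 1, ((ball a 1).indicator (fun s => ENNReal.ofReal (|s - a| ^ (-(1 - θ)))) s + 1) :=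
        lintegral_mono hsplit
    _ = (∫⁻ s in Ioc (0 : ℝ) 1, (ball a 1).indicator (fun s => ENNReal.ofReal (|s - a| ^ (-(1 - θ)))) s) + 1 := by
        rw [lintegral_add_right _ measurable_const]
        simp
    _ ≤ (∫⁻ s, (ball a 1).indicator (fun s => ENNReal.ofReal (|s - a| ^ (-(1 - θ)))) s) + 1 := by
        gcongr
        exact Measure.restrict_le_self
    _ = C1 θ := by
        rw [C1]
        congr 1
        rw [← lintegral_indicator measurableSet_ball, ← lintegral_add_right_eq_self _ a]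
        congr 1
        ext u
        by_cases hu : u ∈ ball (0 : ℝ) 1
        · have h' : u + a ∈ ball a 1 := by
            rw [mem_ball, dist_eq_norm, add_sub_cancel_right]
            simpa using hu
          rw [indicator_of_mem hu, indicator_of_mem h', add_sub_cancel_right]
        · have h' : u + a ∉ ball a 1 := by
            rw [mem_ball, dist_eq_norm, add_sub_cancel_right]
            simpa using hu
          rw [indicator_of_notMem hu, indicator_of_notMem h']

theorem norm_Phi_le (x : E3) : ‖Phi x‖ ≤ ‖x‖⁻¹ := by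
  rw [norm_Phi]
  have h : (4 * Real.pi)⁻¹ ≤ 1 := by
    apply inv_le_one_of_one_le₀
    have := Real.pi_gt_three
    linarith
  calc (4 * Real.pi)⁻¹ * ‖x‖⁻¹ ≤ 1 * ‖x‖⁻¹ := by gcongr
    _ = ‖x‖⁻¹ := one_mul _

theorem Phi_seg_le (θ : ℝ) (h0 : 0 < θ) (h1 : θ < 1) (z : E3) (hz0 : z 0 ≠ 0) (hz2 : z 2 ≠ 0) (s : ℝ)
    (hs : s ≠ z 1) :
    ‖Phi (s • e2 - z)‖ ≤ |z 0| ^ (-(θ / 2)) * |z 2| ^ (-(θ / 2)) * |s - z 1| ^ (-(1 - θ)) := by
  refine (norm_Phi_le _).trans ?_
  set w := s • e2 - z with hw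
  obtain ⟨c0, c1, c2⟩ := seg_coord s z
  rw [← hw] at c0 c1 c2
  have a0 : |z 0| ≤ ‖w‖ := by have := coord_le_norm w 0; rwa [c0, abs_neg] at this
  have a1 : |s - z 1| ≤ ‖w‖ := by have := coord_le_norm w 1; rwa [c1] at this
  have a2 : |z 2| ≤ ‖w‖ := by have := coord_le_norm w 2; rwa [c2, abs_neg] at this
  have p0 : 0 < |z 0| := abs_pos.2 hz0
  have p1 : 0 < |s - z 1| := abs_pos.2 (sub_ne_zero.2 hs)
  have p2 : 0 < |z 2| := abs_pos.2 hz2
  have pw : 0 < ‖w‖ := p0.trans_le a0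
  have e : ‖w‖⁻¹ = ‖w‖ ^ (-(θ / 2)) * ‖w‖ ^ (-(θ / 2)) * ‖w‖ ^ (-(1 - θ)) := by
    rw [← Real.rpow_add pw, ← Real.rpow_add pw, ← Real.rpow_neg_one]
    congr 1
    ring
  rw [e]
  have b0 : ‖w‖ ^ (-(θ / 2)) ≤ |z 0| ^ (-(θ / 2)) := Real.rpow_le_rpow_of_nonpos p0 a0 (by linarith)
  have b2 : ‖w‖ ^ (-(θ / 2)) ≤ |z 2| ^ (-(θ / 2)) := Real.rpow_le_rpow_of_nonpos p2 a2 (by linarith)
  have b1 : ‖w‖ ^ (-(1 - θ)) ≤ |s - z 1| ^ (-(1 - θ)) := Real.rpow_le_rpow_of_nonpos p1 a1 (by linarith)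
  exact mul_le_mul (mul_le_mul b0 b2 (by positivity) (by positivity)) b1 (by positivity) (by positivity)

theorem enorm_G_le (z : E3) : ‖G z‖ₑ ≤ ∫⁻ s in Ioc (0 : ℝ) 1, ‖Phi (s • e2 - z)‖ₑ := by
  rw [G, intervalIntegral.integral_of_le zero_le_one]
  exact enorm_integral_le_lintegral_enorm _

theorem G_bound_near (θ : ℝ) (h0 : 0 < θ) (h1 : θ < 1) (z : E3) (hz0 : z 0 ≠ 0) (hz2 : z 2 ≠ 0) :
    ‖G z‖ₑ ≤ ENNReal.ofReal (|z 0| ^ (-(θ / 2)) * |z 2| ^ (-(θ / 2))) * C1 θ := by
  refine (enorm_G_le z).trans ?_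
  calc ∫⁻ s in Ioc (0 : ℝ) 1, ‖Phi (s • e2 - z)‖ₑ
      ≤ ∫⁻ s in Ioc (0 : ℝ) 1, ENNReal.ofReal (|z 0| ^ (-(θ / 2)) * |z 2| ^ (-(θ / 2))) *
          ENNReal.ofReal (|s - z 1| ^ (-(1 - θ))) := by
        apply lintegral_mono_ae
        apply ae_restrict_of_ae
        have : ∀ᵐ s : ℝ, s ≠ z 1 := by rw [ae_iff]; simp
        filter_upwards [this] with s hs
        rw [← ENNReal.ofReal_mul (by positivity), ← ofReal_norm]
        exact ENNReal.ofReal_le_ofReal (Phi_seg_le θ h0 h1 z hz0 hz2 s hs)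
    _ = ENNReal.ofReal (|z 0| ^ (-(θ / 2)) * |z 2| ^ (-(θ / 2))) *
          ∫⁻ s in Ioc (0 : ℝ) 1, ENNReal.ofReal (|s - z 1| ^ (-(1 - θ))) := by
        rw [lintegral_const_mul']
        exact ENNReal.ofReal_ne_top
    _ ≤ _ := by gcongr; exact one_dim θ h1 _

theorem G_bound_far (z : E3) (hz : 3 ≤ ‖z‖) : ‖G z‖ₑ ≤ ENNReal.ofReal (2 * (1 + ‖z‖)⁻¹) := by
  refine (enorm_G_le z).trans ?_
  calc ∫⁻ s in Ioc (0 : ℝ) 1, ‖Phi (s • e2 - z)‖ₑ
      ≤ ∫⁻ s in Ioc (0 : ℝ) 1, ENNReal.ofReal (2 * (1 + ‖z‖)⁻¹) := by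
        apply setLIntegral_mono measurable_const
        intro s hs
        rw [← ofReal_norm]
        apply ENNReal.ofReal_le_ofReal
        refine (norm_Phi_le _).trans ?_
        have h1 : ‖z‖ - 1 ≤ ‖s • e2 - z‖ := by
          have h2 : ‖z‖ ≤ ‖s • e2‖ + ‖s • e2 - z‖ := by
            have := norm_sub_le (s • e2) (s • e2 - z)
            rwa [sub_sub_cancel] at this
          have h3 : ‖s • e2‖ ≤ 1 := by
            rw [norm_smul, e2_norm, mul_one, Real.norm_of_nonneg hs.1.le]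
            exact hs.2
          linarith
        have h4 : (1 + ‖z‖) / 2 ≤ ‖s • e2 - z‖ := by linarith
        calc ‖s • e2 - z‖⁻¹ ≤ ((1 + ‖z‖) / 2)⁻¹ := by gcongr
          _ = 2 * (1 + ‖z‖)⁻¹ := by field_simp
    _ = ENNReal.ofReal (2 * (1 + ‖z‖)⁻¹) := by simp

/-- the one-dimensional factors -/
noncomputable def f1 (i : Fin 3) (u : ℝ) : ℝ :=
  (ball (0 : ℝ) 4).indicator (fun u => if i = 1 then 1 else |u| ^ (-(1 / 2) : ℝ)) u

theorem f1_int (i : Fin 3) : Integrable (f1 i) := by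
  have hm : MeasurableSet (ball (0 : ℝ) 4) := measurableSet_ball
  by_cases hi : i = 1
  · have : f1 i = (ball (0 : ℝ) 4).indicator (fun _ => 1) := by
      ext u; simp [f1, hi]
    rw [this, integrable_indicator_iff hm]
    exact integrableOn_const (measure_ball_lt_top.ne)
  · have : f1 i = (ball (0 : ℝ) 4).indicator (fun u => |u| ^ (-(1 / 2) : ℝ)) := by
      ext u; simp [f1, hi]
    rw [this, integrable_indicator_iff hm]
    refine integrableOn_ball_of_norm_le_rpow (μ := (volume : Measure ℝ)) (C := 1)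
      (α := 1 / 2) (by simp) (by simp; norm_num) ?_ ?_
    · refine ae_of_all _ (fun x => ?_)
      rw [one_mul, Real.norm_of_nonneg (by positivity), Real.norm_eq_abs]
    · exact (measurable_norm.pow_const _).aestronglyMeasurable

theorem prod_int : Integrable (fun z : E3 => ∏ i, f1 i (z i)) := by
  have h := Integrable.fintype_prod (f := f1) (μ := fun _ : Fin 3 => (volume : Measure ℝ)) f1_int
  have h2 := (PiLp.volume_preserving_ofLp (Fin 3)).integrable_comp_of_integrable h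
  exact h2

theorem coord_ne (i : Fin 3) : ∀ᵐ z : E3, z i ≠ 0 := by
  have h : (volume : Measure E3) {z : E3 | z i = 0} = 0 := by
    have h1 : {z : E3 | z i = 0} = ((LinearMap.ker (EuclideanSpace.proj i : E3 →L[ℝ] ℝ).toLinearMap : Submodule ℝ E3) : Set E3) := by
      ext z; simp
    rw [h1]
    apply Measure.addHaar_submodule
    intro htop
    have : (EuclideanSpace.single i (1 : ℝ) : E3) ∈ (LinearMap.ker (EuclideanSpace.proj i : E3 →L[ℝ] ℝ).toLinearMap : Submodule ℝ E3) := by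
      rw [htop]; trivial
    simp at this
  rw [ae_iff]
  simpa using h

theorem G_memLp (q : ℝ≥0∞) (hq : 3 < q) (hq' : q ≠ ⊤) : MemLp G q volume := by
  refine ⟨G_meas.aestronglyMeasurable, ?_⟩
  have hq0 : q ≠ 0 := by rintro rfl; simp at hq
  have hq3 : 3 < q.toReal := by
    have := (ENNReal.toReal_lt_toReal (by norm_num) hq').2 hq
    simpa using this
  rw [eLpNorm_lt_top_iff_lintegral_rpow_enorm_lt_top hq0 hq']
  set r := q.toReal with hr
  set θ : ℝ := r⁻¹ with hθ
  have hr0 : 0 < r := by linarith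
  have hθ0 : 0 < θ := inv_pos.2 hr0
  have hθ1 : θ < 1 := inv_lt_one_of_one_lt₀ (by linarith)
  have hbd : ∀ᵐ z : E3, ‖G z‖ₑ ^ r ≤ C1 θ ^ r * ENNReal.ofReal (∏ i, f1 i (z i))
      + ENNReal.ofReal (2 ^ r * (1 + ‖z‖) ^ (-r)) := by
    filter_upwards [coord_ne 0, coord_ne 2] with z hz0 hz2
    by_cases hz : 3 ≤ ‖z‖
    · refine le_trans ?_ le_add_self
      calc ‖G z‖ₑ ^ r ≤ ENNReal.ofReal (2 * (1 + ‖z‖)⁻¹) ^ r := by
            gcongr; exact G_bound_far z hz
        _ = ENNReal.ofReal (2 ^ r * (1 + ‖z‖) ^ (-r)) := by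
            rw [ENNReal.ofReal_rpow_of_pos (by positivity), Real.mul_rpow (by norm_num) (by positivity),
              Real.inv_rpow (by positivity), Real.rpow_neg (by positivity)]
    · refine le_trans ?_ le_self_add
      push Not at hz
      have hin : ∀ i, z i ∈ ball (0 : ℝ) 4 := by
        intro i
        rw [mem_ball_zero_iff]
        have := coord_le_norm z i
        rw [Real.norm_eq_abs]
        linarith
      have hprod : ∏ i, f1 i (z i) = |z 0| ^ (-(1 / 2) : ℝ) * |z 2| ^ (-(1 / 2) : ℝ) := by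
        rw [Fin.prod_univ_three]
        simp only [f1]
        rw [indicator_of_mem (hin 0), indicator_of_mem (hin 1), indicator_of_mem (hin 2)]
        simp
      rw [hprod]
      calc ‖G z‖ₑ ^ r ≤ (ENNReal.ofReal (|z 0| ^ (-(θ / 2)) * |z 2| ^ (-(θ / 2))) * C1 θ) ^ r := by
            gcongr; exact G_bound_near θ hθ0 hθ1 z hz0 hz2
        _ = C1 θ ^ r * ENNReal.ofReal (|z 0| ^ (-(1 / 2) : ℝ) * |z 2| ^ (-(1 / 2) : ℝ)) := by
            rw [ENNReal.mul_rpow_of_nonneg _ _ hr0.le, mul_comm]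
            congr 1
            have p0 : 0 < |z 0| := abs_pos.2 hz0
            have p2 : 0 < |z 2| := abs_pos.2 hz2
            rw [ENNReal.ofReal_rpow_of_pos (by positivity), Real.mul_rpow (by positivity) (by positivity),
              ← Real.rpow_mul (by positivity), ← Real.rpow_mul (by positivity)]
            have : -(θ / 2) * r = -(1 / 2) := by
              rw [hθ]; field_simp
            rw [this]
  refine (lintegral_mono_ae hbd).trans_lt ?_
  have hm1 : AEMeasurable (fun z : E3 => ENNReal.ofReal (2 ^ r * (1 + ‖z‖) ^ (-r))) volume := by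
    apply Measurable.aemeasurable
    fun_prop
  rw [lintegral_add_right' _ hm1]
  refine ENNReal.add_lt_top.2 ⟨?_, ?_⟩
  · rw [lintegral_const_mul' _ _ (ENNReal.rpow_ne_top_of_nonneg hr0.le (C1_ne_top θ hθ0))]
    apply ENNReal.mul_lt_top (ENNReal.rpow_lt_top_of_nonneg hr0.le (C1_ne_top θ hθ0))
    have h3 := prod_int.2
    rwa [hasFiniteIntegral_iff_ofReal] at h3
    refine ae_of_all _ (fun z => Finset.prod_nonneg fun i _ => ?_)
    rw [f1]
    apply indicator_nonneg
    intro u _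
    split_ifs
    · exact zero_le_one
    · positivity
  · have h4 : Integrable (fun z : E3 => 2 ^ r * (1 + ‖z‖) ^ (-r)) := by
      apply Integrable.const_mul
      apply integrable_one_add_norm
      have hd : Module.finrank ℝ E3 = 3 := by simp
      rw [hd]
      push_cast
      exact hq3
    have h3 := h4.2
    rwa [hasFiniteIntegral_iff_ofReal] at h3
    exact ae_of_all _ (fun z => by positivity)

end Pool.Agent.W797.Cap
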