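import Pool.Agent.W797.Cap.Newton

/-! # Upper bound for the capacity of subsets of balls -/

set_option autoImplicit false

open MeasureTheory Set Filter Topology Metric
open scoped InnerProductSpace ContDiff Laplacian ENNReal
open Pool.Agent.Helper486.TP

namespace Pool.Agent.W797.Cap

theorem eLpNorm_scale {F : Type*} [NormedAddCommGroup F] (g : E3 → F)
    (p : ℝ≥0∞) (hp : p ≠ ⊤) (x : E3) (δ : ℝ) (hδ : 0 < δ) :
    eLpNorm (fun y => g (δ⁻¹ • (y - x))) p volume
      = ENNReal.ofReal (δ ^ 3) ^ (1 / p).toReal * eLpNorm g p volume := by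
  have h1 : eLpNorm (fun y => g (δ⁻¹ • (y - x))) p volume = eLpNorm (fun y => g (δ⁻¹ • y)) p volume := by
    have hmp : MeasurePreserving (fun y : E3 => y - x) volume volume := measurePreserving_sub_right volume x
    have hme : MeasurableEmbedding (fun y : E3 => y - x) := (MeasurableEquiv.subRight x).measurableEmbedding
    have := hme.eLpNorm_map_measure (g := fun y => g (δ⁻¹ • y)) (p := p) (μ := volume)
    rw [hmp.map_eq] at this
    exact this.symm
  rw [h1]
  have hme : MeasurableEmbedding (fun y : E3 => δ⁻¹ • y) :=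
    measurableEmbedding_const_smul₀ (inv_ne_zero hδ.ne')
  have h2 := hme.eLpNorm_map_measure (g := g) (p := p) (μ := (volume : Measure E3))
  have h3 : eLpNorm (fun y => g (δ⁻¹ • y)) p volume = eLpNorm g p (Measure.map (fun y : E3 => δ⁻¹ • y) volume) := h2.symm
  rw [h3, Measure.map_addHaar_smul volume (inv_ne_zero hδ.ne'), eLpNorm_smul_measure_of_ne_top hp]
  have hd : Module.finrank ℝ E3 = 3 := by simp
  rw [hd, smul_eq_mul]
  congr 3
  rw [inv_pow, inv_inv, abs_of_pos (by positivity)]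

theorem lap_scale (φ : E3 → ℝ) (hφ : ContDiff ℝ ∞ φ) (x : E3) (r : ℝ) (y : E3) :
    (Δ (fun y => φ (r • (y - x)))) y = r ^ 2 * (Δ φ) (r • (y - x)) := by
  have h1 : (Δ (fun y => φ (r • (y - x)))) y = (Δ (fun z => φ (r • z))) (y - x) :=
    congrFun (lap_comp_sub (fun z => φ (r • z)) x) y
  rw [h1]
  have h2 := iteratedFDeriv_comp_const_smul (i := 2) r (hφ.of_le (by exact_mod_cast two_le_infty))
  rw [lap_eq, lap_eq]
  simp only [h2]
  simp [Finset.mul_sum]

/-- facts on conjugate exponents -/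
theorem conj_facts (q : ℝ≥0∞) (hq : 3 < q) (hq' : q ≠ ⊤) :
    ∃ p : ℝ≥0∞, ENNReal.HolderConjugate q p ∧ p ≠ ⊤ ∧ p ≠ 0 ∧ (1 / p).toReal = 1 - (q.toReal)⁻¹
      ∧ 3 < q.toReal := by
  have h1 : 1 ≤ q := le_trans (by norm_num) hq.le
  have : Fact (1 ≤ q) := ⟨h1⟩
  refine ⟨q.conjExponent, inferInstance, ?_, ?_, ?_, ?_⟩
  · rw [ENNReal.conjExponent]
    apply ENNReal.add_ne_top.2
    refine ⟨ENNReal.one_ne_top, ?_⟩
    rw [Ne, ENNReal.inv_eq_top]
    intro h
    rw [tsub_eq_zero_iff_le] at h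
    exact absurd (hq.trans_le h) (by norm_num)
  · rw [ENNReal.conjExponent]
    simp
  · have h2 : ENNReal.HolderConjugate q q.conjExponent := inferInstance
    have h3 := ENNReal.HolderConjugate.one_sub_inv q q.conjExponent
    rw [one_div, ← h3, ENNReal.toReal_sub_of_le, ENNReal.toReal_inv]
    · simp
    · exact ENNReal.inv_le_one.2 h1
    · simp
  · have := (ENNReal.toReal_lt_toReal (by norm_num) hq').2 hq
    simpa using this

theorem cap_upper (q : ℝ≥0∞) (hq : 3 < q) (hq' : q ≠ ⊤) :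
    ∃ M : ℝ≥0∞, M ≠ ⊤ ∧ ∀ (x : E3) (δ : ℝ) (σ : Set E3), 0 < δ → σ ⊆ closedBall x δ →
      capTilde q σ ≤ ENNReal.ofReal (δ ^ (1 - 3 / q.toReal)) * M := by
  obtain ⟨p, hpq, hpt, hp0, hpr, hq3⟩ := conj_facts q hq hq'
  have := hpq
  let χb : ContDiffBump (0 : E3) := ⟨3 / 2, 2, by norm_num, by norm_num⟩
  set χ : E3 → ℝ := fun y => χb y with hχ
  have hχs : ContDiff ℝ ∞ χ := χb.contDiff
  have hχc : HasCompactSupport χ := χb.hasCompactSupport
  set g : E3 → ℂ := fun y => (((Δ χ) y : ℝ) : ℂ) with hg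
  have hgc : Continuous g := Complex.continuous_ofReal.comp (lap_continuous hχs)
  have hgs : HasCompactSupport g := (lap_hasCompactSupport hχc).comp_left (g := fun r : ℝ => (r : ℂ)) (by simp)
  refine ⟨eLpNorm g p volume, (hgc.memLp_of_hasCompactSupport hgs).eLpNorm_ne_top, ?_⟩
  intro x δ σ hδ hσ
  unfold capTilde
  refine iSup_le fun T => iSup_le fun F => iSup_le fun hT => iSup_le fun hF => iSup_le fun hL => iSup_le fun h1 => ?_
  obtain ⟨L, hLc, hLσ, hLT⟩ := hT
  have h1 : eLpNorm F q volume ≤ 1 := by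
    have h1' : eLpNorm F q (volume.restrict univ) ≤ 1 := h1
    rwa [Measure.restrict_univ] at h1'
  -- the rescaled cutoff
  set ψ : E3 → ℝ := fun y => χ (δ⁻¹ • (y - x)) with hψ
  have hlin : ContDiff ℝ ∞ (fun y : E3 => δ⁻¹ • (y - x)) := by fun_prop
  have hψs : ContDiff ℝ ∞ ψ := hχs.comp hlin
  have hψc : HasCompactSupport ψ := by
    have : IsClosedEmbedding (fun y : E3 => δ⁻¹ • (y - x)) :=
      ((Homeomorph.subRight x).trans (Homeomorph.smulOfNeZero δ⁻¹ (inv_ne_zero hδ.ne'))).isClosedEmbedding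
    exact hχc.comp_isClosedEmbedding this
  have hψ1 : ∀ᶠ y in 𝓝ˢ L, ψ y = 1 := by
    have hop : IsOpen (ball x (3 / 2 * δ)) := isOpen_ball
    have hsub : L ⊆ ball x (3 / 2 * δ) := by
      intro y hy
      have := hσ (hLσ hy)
      rw [mem_closedBall] at this
      rw [mem_ball]
      linarith
    filter_upwards [hop.mem_nhdsSet.2 hsub] with y hy
    apply χb.one_of_mem_closedBall
    rw [mem_closedBall_zero_iff, norm_smul, norm_inv, Real.norm_of_nonneg hδ.le]
    rw [mem_ball, dist_eq_norm] at hy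
    have : ‖y - x‖ ≤ (3 / 2) * δ := hy.le
    calc δ⁻¹ * ‖y - x‖ ≤ δ⁻¹ * ((3 / 2) * δ) := by gcongr
      _ = 3 / 2 := by field_simp
  set ψc : E3 → ℂ := fun y => ((ψ y : ℝ) : ℂ) with hψcdef
  have hψcs : ContDiff ℝ ∞ ψc := Complex.ofRealCLM.contDiff.comp hψs
  have hone : T.toFun (fun _ => 1) = T.toFun ψc := by
    have hc1 : ContDiff ℝ ∞ (fun _ : E3 => (1 : ℂ)) := contDiff_const
    have hc2 : ContDiff ℝ ∞ ((-1 : ℂ) • fun _ : E3 => (1 : ℂ)) := hc1.const_smul (-1 : ℂ)
    have h2 : T.toFun (ψc + ((-1 : ℂ) • fun _ => (1 : ℂ))) = 0 := by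
      apply hLT
      · exact hψcs.add hc2
      · filter_upwards [hψ1] with y hy
        simp [hψcdef, hy]
    rw [T.lin.1 _ _ hψcs hc2, T.lin.2 _ _ hc1] at h2
    linear_combination -h2
  -- the test function
  set φ : E3 → ℂ := fun y => (((Δ ψ) y : ℝ) : ℂ) with hφ
  have hlapψs : ContDiff ℝ ∞ (Δ ψ) := by
    have : (Δ ψ) = fun y => ∑ i, fderiv ℝ (fun z => fderiv ℝ ψ z (EuclideanSpace.basisFun (Fin 3) ℝ i)) y
        (EuclideanSpace.basisFun (Fin 3) ℝ i) := by
      ext y; exact nl_lap_eq hψs y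
    rw [this]
    have hD : ∀ {ψ : E3 → ℝ}, ContDiff ℝ ∞ ψ → ∀ v : E3, ContDiff ℝ ∞ (fun z => fderiv ℝ ψ z v) := by
      intro ψ h v
      exact (h.fderiv_right (m := ∞) (by norm_cast)).clm_apply contDiff_const
    exact ContDiff.sum fun i _ => hD (hD hψs _) _
  have hφs : ContDiff ℝ ∞ φ := Complex.ofRealCLM.contDiff.comp hlapψs
  have hφc : HasCompactSupport φ := (lap_hasCompactSupport hψc).comp_left (g := fun r : ℝ => (r : ℂ)) (by simp)
  have hconv : PhiConv φ = ψc := by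
    ext z
    exact Phi_conv_lap ψ hψs hψc z
  have hTF := hF φ hφs hφc
  rw [hconv] at hTF
  have hFm : AEStronglyMeasurable F volume := by
    have : ∀ n : ℕ, AEStronglyMeasurable F (volume.restrict (closedBall (0 : E3) n)) := fun n =>
      (hL.1 _ (isCompact_closedBall _ _)).aestronglyMeasurable
    have h3 := (aestronglyMeasurable_iUnion_iff (μ := (volume : Measure E3)) (f := F) (s := fun n : ℕ => closedBall (0 : E3) n)).2 this
    have h4 : (⋃ n : ℕ, closedBall (0 : E3) n) = univ := iUnion_closedBall_nat 0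
    rw [h4, Measure.restrict_univ] at h3
    exact h3
  rw [hone, hTF]
  calc ‖∫ y, F y * φ y‖ₑ ≤ ∫⁻ y, ‖F y * φ y‖ₑ := enorm_integral_le_lintegral_enorm _
    _ = eLpNorm (F • φ) 1 volume := by
        rw [eLpNorm_one_eq_lintegral_enorm]; rfl
    _ ≤ eLpNorm F q volume * eLpNorm φ p volume :=
        eLpNorm_smul_le_mul_eLpNorm hφs.continuous.aestronglyMeasurable hFm
    _ ≤ 1 * eLpNorm φ p volume := by gcongr
    _ = eLpNorm φ p volume := one_mul _
    _ = eLpNorm (fun y => ((δ⁻¹ ^ 2 : ℝ) : ℂ) • g (δ⁻¹ • (y - x))) p volume := by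
        congr 1
        ext y
        rw [hφ]
        simp only [hψ, lap_scale χ hχs x δ⁻¹ y, hg, smul_eq_mul, Complex.ofReal_mul]
    _ = ENNReal.ofReal (δ⁻¹ ^ 2) * eLpNorm (fun y => g (δ⁻¹ • (y - x))) p volume := by
        rw [show (fun y => ((δ⁻¹ ^ 2 : ℝ) : ℂ) • g (δ⁻¹ • (y - x))) = ((δ⁻¹ ^ 2 : ℝ) : ℂ) • (fun y => g (δ⁻¹ • (y - x))) from rfl,
          eLpNorm_const_smul]
        congr 1
        rw [← ofReal_norm, Complex.norm_real, Real.norm_of_nonneg (by positivity)]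
    _ = ENNReal.ofReal (δ ^ (1 - 3 / q.toReal)) * eLpNorm g p volume := by
        rw [eLpNorm_scale g p hpt x δ hδ, ← mul_assoc]
        congr 1
        rw [hpr, ENNReal.ofReal_rpow_of_pos (by positivity), ← ENNReal.ofReal_mul (by positivity)]
        congr 1
        rw [← Real.rpow_natCast δ⁻¹ 2, Real.inv_rpow hδ.le, ← Real.rpow_neg hδ.le, ← Real.rpow_natCast δ 3,
          ← Real.rpow_mul hδ.le, ← Real.rpow_add hδ]
        congr 1
        push_cast
        ring

end Pool.Agent.W797.Cap
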