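import Pool.Agent.W797.Cap.Line
import Pool.Agent.W797.Cap.Upper

/-! # Lower bound for the capacity of sets containing a segment -/

set_option autoImplicit false

open MeasureTheory Set Filter Topology Metric
open scoped InnerProductSpace ContDiff Laplacian ENNReal
open Pool.Agent.Helper486.TP

namespace Pool.Agent.W797.Cap

/-- the parametrised segment -/
noncomputable def sg (p : E3) (l s : ℝ) : E3 := p + (l * s) • e2

theorem sg_cont (p : E3) (l : ℝ) : Continuous (sg p l) := by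
  unfold sg; fun_prop

/-- (a multiple of) integration over a segment, as a distribution -/
noncomputable def segD (p : E3) (l κ : ℝ) : CDist where
  toFun φ := (κ : ℂ) * ∫ s in (0 : ℝ)..1, φ (sg p l s)
  lin := by
    refine ⟨?_, ?_⟩
    · intro φ ψ hφ hψ
      have h1 : IntervalIntegrable (fun s => φ (sg p l s)) volume 0 1 :=
        ((ContDiff.continuous hφ).comp (sg_cont p l)).intervalIntegrable _ _
      have h2 : IntervalIntegrable (fun s => ψ (sg p l s)) volume 0 1 :=
        ((ContDiff.continuous hψ).comp (sg_cont p l)).intervalIntegrable _ _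
      simp only [Pi.add_apply]
      rw [intervalIntegral.integral_add h1 h2]
      ring
    · intro a φ _
      simp only [Pi.smul_apply, smul_eq_mul]
      rw [intervalIntegral.integral_const_mul]
      ring
  bdd := by
    refine ⟨(sg p l) '' Icc 0 1, 0, |κ|, isCompact_Icc.image (sg_cont p l), ?_⟩
    intro φ B _ hB
    rw [norm_mul, Complex.norm_real, Real.norm_eq_abs]
    gcongr
    have h1 : ‖∫ s in (0 : ℝ)..1, φ (sg p l s)‖ ≤ B * |1 - 0| := by
      apply intervalIntegral.norm_integral_le_of_norm_le_const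
      intro s hs
      rw [uIoc_of_le zero_le_one] at hs
      have := hB 0 le_rfl (sg p l s) ⟨s, ⟨hs.1.le, hs.2⟩, rfl⟩
      rwa [norm_iteratedFDeriv_zero] at this
    simpa using h1

theorem segD_supp (p : E3) (l κ : ℝ) (σ : Set E3) (h : ∀ s ∈ Icc (0 : ℝ) 1, sg p l s ∈ σ) :
    (segD p l κ).SuppIn σ := by
  refine ⟨(sg p l) '' Icc 0 1, isCompact_Icc.image (sg_cont p l), ?_, ?_⟩
  · rintro _ ⟨s, hs, rfl⟩
    exact h s hs
  · intro φ _ hφ
    have h1 : ∀ x ∈ (sg p l) '' Icc 0 1, φ x = 0 := fun x hx => (hφ.self_of_nhdsSet) x hx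
    change (κ : ℂ) * ∫ s in (0 : ℝ)..1, φ (sg p l s) = 0
    have h2 : ∫ s in (0 : ℝ)..1, φ (sg p l s) = ∫ s in (0 : ℝ)..1, (0 : ℂ) := by
      apply intervalIntegral.integral_congr
      intro s hs
      rw [uIcc_of_le zero_le_one] at hs
      exact h1 _ ⟨s, hs, rfl⟩
    rw [h2]
    simp

theorem Phi_homog (c : ℝ) (hc : 0 < c) (x : E3) : Phi (c • x) = (c⁻¹ : ℂ) * Phi x := by
  unfold Phi
  rw [norm_smul, Real.norm_of_nonneg hc.le]
  push_cast
  rw [mul_inv, mul_inv, mul_inv]
  ring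

/-- the potential of the segment distribution -/
noncomputable def segF (p : E3) (l κ : ℝ) (y : E3) : ℂ := ((κ * l⁻¹ : ℝ) : ℂ) * G (l⁻¹ • (y - p))

theorem segF_eq (p : E3) (l κ : ℝ) (hl : 0 < l) (y : E3) :
    segF p l κ y = (κ : ℂ) * ∫ s in (0 : ℝ)..1, Phi (sg p l s - y) := by
  unfold segF G
  have h : ∀ s : ℝ, Phi (sg p l s - y) = (l⁻¹ : ℂ) * Phi (s • e2 - l⁻¹ • (y - p)) := by
    intro s
    rw [← Phi_homog l hl]
    congr 1
    rw [sg, smul_sub, smul_smul, smul_smul, mul_inv_cancel₀ hl.ne', one_smul]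
    abel
  simp_rw [h]
  rw [intervalIntegral.integral_const_mul]
  push_cast
  ring

theorem fubini_aux (p : E3) (l : ℝ) (φ : E3 → ℂ) (hφ : Continuous φ) (hs : HasCompactSupport φ) :
    Integrable (Function.uncurry fun (s : ℝ) (y : E3) => Phi (sg p l s - y) * φ y)
      ((volume.restrict (Ioc (0 : ℝ) 1)).prod volume) := by
  have hm : Measurable (Function.uncurry fun (s : ℝ) (y : E3) => Phi (sg p l s - y) * φ y) := by
    apply Measurable.mul
    · apply Phi_measurable.comp
      exact (((sg_cont p l).measurable.comp measurable_fst).sub measurable_snd)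
    · exact hφ.measurable.comp measurable_snd
  refine ⟨hm.aestronglyMeasurable, ?_⟩
  obtain ⟨M, hM⟩ := hs.exists_bound_of_continuous hφ
  obtain ⟨C, hC, hCb⟩ := Phi_locInt (tsupport φ) hs
  unfold HasFiniteIntegral
  rw [lintegral_prod _ hm.enorm.aemeasurable]
  have hin : ∀ s : ℝ, ∫⁻ y, ‖(Function.uncurry fun (s : ℝ) (y : E3) => Phi (sg p l s - y) * φ y) (s, y)‖ₑ
      ≤ C * ENNReal.ofReal M := by
    intro s
    calc ∫⁻ y, ‖(Function.uncurry fun (s : ℝ) (y : E3) => Phi (sg p l s - y) * φ y) (s, y)‖ₑ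
        = ∫⁻ y, ‖Phi (sg p l s - y)‖ₑ * ‖φ y‖ₑ := by
          simp [Function.uncurry]
      _ ≤ ∫⁻ y, (tsupport φ).indicator (fun y => ‖Phi (sg p l s - y)‖ₑ * ENNReal.ofReal M) y := by
          apply lintegral_mono
          intro y
          by_cases hy : y ∈ tsupport φ
          · rw [indicator_of_mem hy]
            show ‖Phi (sg p l s - y)‖ₑ * ‖φ y‖ₑ ≤ _
            gcongr
            rw [← ofReal_norm]
            exact ENNReal.ofReal_le_ofReal (hM y)
          · rw [indicator_of_notMem hy]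
            simp [image_eq_zero_of_notMem_tsupport hy]
      _ = ∫⁻ y in tsupport φ, ‖Phi (sg p l s - y)‖ₑ * ENNReal.ofReal M := by
          rw [lintegral_indicator (isClosed_tsupport φ).measurableSet]
      _ = (∫⁻ y in tsupport φ, ‖Phi (sg p l s - y)‖ₑ) * ENNReal.ofReal M := by
          rw [lintegral_mul_const' _ _ ENNReal.ofReal_ne_top]
      _ ≤ C * ENNReal.ofReal M := by gcongr; exact hCb _
  calc ∫⁻ s in Ioc (0 : ℝ) 1, ∫⁻ y, ‖(Function.uncurry fun (s : ℝ) (y : E3) => Phi (sg p l s - y) * φ y) (s, y)‖ₑ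
      ≤ ∫⁻ s in Ioc (0 : ℝ) 1, C * ENNReal.ofReal M := lintegral_mono hin
    _ = C * ENNReal.ofReal M := by simp
    _ < ⊤ := ENNReal.mul_lt_top (lt_top_iff_ne_top.2 hC) ENNReal.ofReal_lt_top

theorem segD_conv (p : E3) (l κ : ℝ) (hl : 0 < l) : (segD p l κ).ConvEq (segF p l κ) := by
  intro φ hφ hs
  change (κ : ℂ) * ∫ s in (0 : ℝ)..1, (∫ y, Phi (sg p l s - y) * φ y) = ∫ y, segF p l κ y * φ y
  have h := integral_integral_swap (fubini_aux p l φ (ContDiff.continuous hφ) hs)
  rw [intervalIntegral.integral_of_le zero_le_one, h, ← integral_const_mul]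
  congr 1
  ext y
  rw [segF_eq p l κ hl y, integral_mul_const, intervalIntegral.integral_of_le zero_le_one]
  ring

theorem cap_lower (q : ℝ≥0∞) (hq : 3 < q) (hq' : q ≠ ⊤) :
    ∃ a : ℝ, 0 < a ∧ ∀ (p : E3) (l : ℝ) (σ : Set E3), 0 < l → (∀ s ∈ Icc (0 : ℝ) 1, sg p l s ∈ σ) →
      ENNReal.ofReal (l ^ (1 - 3 / q.toReal)) * ENNReal.ofReal a ≤ cap q σ := by
  have hG := G_memLp q hq hq'
  set N := (eLpNorm G q volume).toReal with hN
  have hN0 : 0 ≤ N := ENNReal.toReal_nonneg
  have hq0 : q ≠ 0 := by rintro rfl; simp at hq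
  have hq3 : 3 < q.toReal := by
    have := (ENNReal.toReal_lt_toReal (by norm_num) hq').2 hq
    simpa using this
  refine ⟨(N + 1)⁻¹, by positivity, ?_⟩
  intro p l σ hl hσ
  set κ : ℝ := l ^ (1 - 3 / q.toReal) * (N + 1)⁻¹ with hκ
  have hκ0 : 0 < κ := by positivity
  have hF : eLpNorm (segF p l κ) q volume ≤ 1 := by
    have h1 : segF p l κ = ((κ * l⁻¹ : ℝ) : ℂ) • (fun y => G (l⁻¹ • (y - p))) := rfl
    rw [h1, eLpNorm_const_smul, eLpNorm_scale G q hq' p l hl]
    have h2 : ‖((κ * l⁻¹ : ℝ) : ℂ)‖ₑ = ENNReal.ofReal (κ * l⁻¹) := by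
      rw [← ofReal_norm, Complex.norm_real, Real.norm_of_nonneg (by positivity)]
    have h3 : eLpNorm G q volume = ENNReal.ofReal N := by
      rw [hN, ENNReal.ofReal_toReal hG.eLpNorm_ne_top]
    have h5 : (1 / q).toReal = 1 / q.toReal := by simp
    rw [h2, h3, h5, ENNReal.ofReal_rpow_of_pos (by positivity), ← ENNReal.ofReal_mul (by positivity),
      ← ENNReal.ofReal_mul (by positivity), ← ENNReal.ofReal_one]
    apply ENNReal.ofReal_le_ofReal
    have h4 : κ * l⁻¹ * ((l ^ 3) ^ (1 / q.toReal) * N) = N / (N + 1) := by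
      have h6 : l ^ (1 - 3 / q.toReal) * l⁻¹ * (l ^ 3) ^ (1 / q.toReal) = 1 := by
        rw [← Real.rpow_neg_one l, ← Real.rpow_natCast l 3, ← Real.rpow_mul hl.le, ← Real.rpow_add hl,
          ← Real.rpow_add hl]
        convert Real.rpow_zero l using 2
        push_cast
        field_simp
        ring
      rw [hκ]
      calc l ^ (1 - 3 / q.toReal) * (N + 1)⁻¹ * l⁻¹ * ((l ^ 3) ^ (1 / q.toReal) * N)
          = (l ^ (1 - 3 / q.toReal) * l⁻¹ * (l ^ 3) ^ (1 / q.toReal)) * (N / (N + 1)) := by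
            field_simp
        _ = N / (N + 1) := by rw [h6, one_mul]
    rw [h4, div_le_one (by positivity)]
    linarith
  have hFm : MemLp (segF p l κ) q volume := by
    refine ⟨?_, hF.trans_lt ENNReal.one_lt_top⟩
    apply AEStronglyMeasurable.const_mul
    exact (G_meas.comp_measurable (by fun_prop)).aestronglyMeasurable
  have hT : ‖(segD p l κ).toFun (fun _ => 1)‖ₑ = ENNReal.ofReal (l ^ (1 - 3 / q.toReal)) * ENNReal.ofReal (N + 1)⁻¹ := by
    change ‖(κ : ℂ) * ∫ s in (0 : ℝ)..1, (1 : ℂ)‖ₑ = _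
    rw [← ENNReal.ofReal_mul (by positivity), ← hκ]
    simp only [intervalIntegral.integral_const, sub_zero, one_smul, mul_one]
    rw [← ofReal_norm, Complex.norm_real, Real.norm_of_nonneg hκ0.le]
  rw [← hT]
  unfold cap
  refine le_iSup_of_le (segD p l κ) (le_iSup_of_le (segF p l κ) (le_iSup_of_le (segD_supp p l κ σ hσ)
    (le_iSup_of_le (segD_conv p l κ hl) (le_iSup_of_le ?_ (le_iSup_of_le ?_ le_rfl)))))
  · intro L _
    exact hFm.restrict L
  · change eLpNorm (segF p l κ) q (volume.restrict univ) ≤ 1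
    rwa [Measure.restrict_univ]

end Pool.Agent.W797.Cap
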