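import Pool.Agent.Helper486.TP.NewtonLap
import Pool.Agent.W797.Cap.Defs

/-! # The fundamental solution of the Laplacian in three-space -/

set_option autoImplicit false

open MeasureTheory Set Filter Topology Metric
open scoped InnerProductSpace ContDiff Laplacian ENNReal
open Pool.Agent.Helper486.TP

namespace Pool.Agent.W797.Cap

theorem k_integral : ∫ w : E3, ((3 : ℝ) * (3 - 2)) * ((1 : ℝ) + ‖w‖ ^ 2) ^ (-((3 : ℝ) + 2) / 2)
    = 4 * Real.pi := by
  have h := integral_fun_norm_addHaar (volume : Measure E3)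
    (fun r : ℝ => ((3 : ℝ) * (3 - 2)) * ((1 : ℝ) + r ^ 2) ^ (-((3 : ℝ) + 2) / 2))
  rw [h]
  have hd : Module.finrank ℝ E3 = 3 := by simp
  have hv : (volume : Measure E3).real (ball 0 1) = Real.pi * 4 / 3 := by
    rw [Measure.real, EuclideanSpace.volume_ball_fin_three]
    simp
    positivity
  rw [hd, hv]
  have h1 : ∫ y in Ioi (0 : ℝ), y ^ (3 - 1) • (((3 : ℝ) * (3 - 2)) * ((1 : ℝ) + y ^ 2) ^ (-((3 : ℝ) + 2) / 2))
      = 1 := by
    have hderiv : ∀ x ∈ Ici (0 : ℝ), HasDerivAt (fun y : ℝ => y ^ 3 * (1 + y ^ 2) ^ (-(3 : ℝ) / 2))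
        (x ^ (3 - 1) • (((3 : ℝ) * (3 - 2)) * ((1 : ℝ) + x ^ 2) ^ (-((3 : ℝ) + 2) / 2))) x := by
      intro x _
      have hp : 0 < 1 + x ^ 2 := by positivity
      have h2 : HasDerivAt (fun y : ℝ => 1 + y ^ 2) (2 * x) x := by
        have := (hasDerivAt_pow 2 x).const_add 1
        simpa using this
      have h3 := h2.rpow_const (p := -(3 : ℝ) / 2) (Or.inl hp.ne')
      have h4 := (hasDerivAt_pow 3 x).mul h3
      refine h4.congr_deriv ?_
      have e1 : (1 + x ^ 2) ^ (-(3 : ℝ) / 2) = (1 + x ^ 2) ^ (-((3 : ℝ) + 2) / 2) * (1 + x ^ 2) := by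
        rw [← Real.rpow_add_one hp.ne']; congr 1; norm_num
      have e2 : (-(3 : ℝ) / 2 - 1) = -((3 : ℝ) + 2) / 2 := by norm_num
      rw [e2, e1]
      simp only [smul_eq_mul]
      norm_num
      ring
    rw [integral_Ioi_of_hasDerivAt_of_nonneg' (g := fun y : ℝ => y ^ 3 * (1 + y ^ 2) ^ (-(3 : ℝ) / 2)) (l := 1) hderiv]
    · simp
    · intro x hx
      have : (0 : ℝ) < x := hx
      simp only [smul_eq_mul]
      positivity
    · have h5 : Tendsto (fun y : ℝ => ((y ^ 2)⁻¹ + 1) ^ (-(3 : ℝ) / 2)) atTop (𝓝 ((0 + 1) ^ (-(3 : ℝ) / 2))) := by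
        apply Tendsto.rpow_const
        · apply Tendsto.add_const
          exact (tendsto_pow_atTop (by norm_num)).inv_tendsto_atTop
        · left; norm_num
      rw [zero_add, Real.one_rpow] at h5
      refine h5.congr' ?_
      filter_upwards [eventually_gt_atTop 0] with y hy
      have e3 : (y ^ 2)⁻¹ + 1 = (1 + y ^ 2) / y ^ 2 := by
        field_simp
      rw [e3, Real.div_rpow (by positivity) (by positivity)]
      have e4 : (y ^ 2 : ℝ) ^ (-(3 : ℝ) / 2) = (y ^ 3)⁻¹ := by
        rw [← Real.rpow_natCast y 2, ← Real.rpow_mul hy.le, ← Real.rpow_natCast y 3, ← Real.rpow_neg hy.le]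
        congr 1
        norm_num
      rw [e4]
      field_simp
  rw [h1]
  simp
  ring

/-- `∫ |a-y|⁻¹ Δφ(y) dy = -4πφ(a)`. -/
theorem newton3 (φ : E3 → ℝ) (hφ : ContDiff ℝ ∞ φ) (hs : HasCompactSupport φ) (a : E3) :
    ∫ y, ‖a - y‖⁻¹ * (Δ φ) y = -(4 * Real.pi) * φ a := by
  have hn : 3 ≤ 3 := le_rfl
  set k : E3 → ℝ := fun w => (((3 : ℕ) : ℝ) * (((3 : ℕ) : ℝ) - 2)) * ((1 : ℝ) + ‖w‖ ^ 2) ^ (-(((3 : ℕ) : ℝ) + 2) / 2) with hk
  have hkI : ∫ w, k w = 4 * Real.pi := by
    rw [← k_integral]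
    simp [hk]
  have hkint : Integrable k := (kint (n := 3)).const_mul _
  have hkpos : ∀ w, 0 < k w := fun w => by
    have h1 : 0 < ((1 : ℝ) + ‖w‖ ^ 2) ^ (-(((3 : ℕ) : ℝ) + 2) / 2) := Real.rpow_pos_of_pos (by positivity) _
    refine mul_pos ?_ h1
    norm_num
  have hnew : ∀ y, (newton a y).toReal = ‖a - y‖⁻¹ := by
    intro y
    rw [newton, ENNReal.toReal_inv, ENNReal.toReal_pow, ENNReal.toReal_ofReal (norm_nonneg _)]
    norm_num
  set e : ℕ → ℝ := fun m => 1 / ((m : ℝ) + 1) with he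
  have hepos : ∀ m, 0 < e m := fun m => by positivity
  have helim : Tendsto e atTop (𝓝 0) := tendsto_one_div_add_atTop_nhds_zero_nat
  have hLc := lap_cont hφ
  have hLs := lap_supp hφ hs
  obtain ⟨M, hM⟩ : ∃ M, ∀ y, ‖(Δ φ) y‖ ≤ M := by
    have hcs : HasCompactSupport (Δ φ) := HasCompactSupport.intro hs (fun y hy => hLs y hy)
    exact hcs.exists_bound_of_continuous hLc
  obtain ⟨M', hM'⟩ : ∃ M, ∀ y, ‖φ y‖ ≤ M := hs.exists_bound_of_continuous hφ.continuous
  have h0 : ∀ᵐ y : E3, y ≠ a := by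
    rw [ae_iff]; simp
  -- left side
  have hL : Tendsto (fun m => ∫ y, fe (e m) a y * (Δ φ) y) atTop
      (𝓝 (∫ y, (newton a y).toReal * (Δ φ) y)) := by
    apply tendsto_integral_of_dominated_convergence (fun y => (newton a y).toReal * ‖(Δ φ) y‖)
    · intro m
      exact ((fe_contDiff (hepos m) a).continuous.mul hLc).aestronglyMeasurable
    · have hK : IntegrableOn (fun y => (newton a y).toReal) (tsupport φ) := by
        obtain ⟨C, hC, hCa⟩ := newton_locInt hn (tsupport φ) hs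
        apply integrable_toReal_of_lintegral_ne_top (newton_measurable a).aemeasurable
        exact ((hCa a).trans_lt (lt_top_iff_ne_top.2 hC)).ne
      have h1 : IntegrableOn (fun y => (newton a y).toReal * ‖(Δ φ) y‖) (tsupport φ) := by
        apply Integrable.mul_bdd (c := M) hK
        · exact hLc.norm.aestronglyMeasurable
        · exact ae_of_all _ (fun y => by rw [norm_norm]; exact hM y)
      rw [← integrableOn_iff_integrable_of_support_subset (s := tsupport φ)]
      · exact h1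
      · intro y hy
        by_contra h
        apply hy
        simp [hLs y h]
    · intro m
      filter_upwards [h0] with y hy
      rw [norm_mul]
      apply mul_le_mul_of_nonneg_right _ (norm_nonneg _)
      rw [Real.norm_of_nonneg]
      · exact fe_le hn a y hy
      · unfold fe; positivity
    · filter_upwards [h0] with y hy
      exact (fe_tendsto hn a y hy e helim).mul_const _
  -- right side
  have hR : Tendsto (fun m => -∫ w : E3, k w * φ (a + e m • w)) atTop (𝓝 (-∫ w : E3, k w * φ a)) := by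
    apply Tendsto.neg
    apply tendsto_integral_of_dominated_convergence (fun w => k w * M')
    · intro m
      apply AEStronglyMeasurable.mul hkint.1
      have : Continuous (fun w : E3 => φ (a + e m • w)) := hφ.continuous.comp (by fun_prop)
      exact this.aestronglyMeasurable
    · exact hkint.mul_const _
    · intro m
      refine ae_of_all _ (fun w => ?_)
      rw [norm_mul, Real.norm_of_nonneg (hkpos w).le]
      exact mul_le_mul_of_nonneg_left (hM' _) (hkpos w).le
    · refine ae_of_all _ (fun w => ?_)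
      apply Tendsto.const_mul
      have h1 : Tendsto (fun m => a + e m • w) atTop (𝓝 (a + (0 : ℝ) • w)) :=
        tendsto_const_nhds.add (helim.smul_const w)
      rw [zero_smul, add_zero] at h1
      exact (hφ.continuous.tendsto a).comp h1
  have heq : ∀ m, ∫ y, fe (e m) a y * (Δ φ) y = -∫ w : E3, k w * φ (a + e m • w) := by
    intro m
    rw [green (hepos m) hφ hs a, subst_eq (hepos m) φ a]
  have := tendsto_nhds_unique hL ((tendsto_congr heq).2 hR)
  simp_rw [hnew] at this
  rw [this, integral_mul_const, hkI]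
  ring

theorem Phi_measurable : Measurable Phi := by
  unfold Phi
  exact Complex.measurable_ofReal.comp (((measurable_norm.const_mul _).inv).neg)

theorem norm_Phi (x : E3) : ‖Phi x‖ = (4 * Real.pi)⁻¹ * ‖x‖⁻¹ := by
  unfold Phi
  rw [Complex.norm_real, norm_neg, norm_inv, norm_mul, norm_norm, mul_inv]
  congr 1
  rw [Real.norm_of_nonneg (by positivity)]

/-- `Φ * Δφ = φ` for real test functions. -/
theorem Phi_conv_lap (φ : E3 → ℝ) (hφ : ContDiff ℝ ∞ φ) (hs : HasCompactSupport φ) (x : E3) :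
    ∫ y, Phi (x - y) * (((Δ φ) y : ℝ) : ℂ) = ((φ x : ℝ) : ℂ) := by
  have h := newton3 φ hφ hs x
  have h1 : ∀ y, Phi (x - y) * (((Δ φ) y : ℝ) : ℂ)
      = ((-(4 * Real.pi)⁻¹ * (‖x - y‖⁻¹ * (Δ φ) y) : ℝ) : ℂ) := by
    intro y
    unfold Phi
    rw [mul_inv]
    push_cast
    ring
  simp_rw [h1]
  rw [integral_complex_ofReal, integral_const_mul, h]
  congr 1
  have : (4 * Real.pi) ≠ 0 := by positivity
  field_simp

/-- The Newtonian kernel is integrable on compact sets, uniformly in the pole. -/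
theorem Phi_locInt (L : Set E3) (hL : IsCompact L) :
    ∃ C : ℝ≥0∞, C ≠ ⊤ ∧ ∀ a : E3, ∫⁻ y in L, ‖Phi (a - y)‖ₑ ≤ C := by
  obtain ⟨C, hC, h⟩ := newton_locInt (n := 3) le_rfl L hL
  refine ⟨ENNReal.ofReal (4 * Real.pi)⁻¹ * C, ENNReal.mul_ne_top ENNReal.ofReal_ne_top hC, fun a => ?_⟩
  have h0 : ∀ y, ‖Phi (a - y)‖ₑ ≤ ENNReal.ofReal (4 * Real.pi)⁻¹ * newton a y := by
    intro y
    rw [← ofReal_norm, norm_Phi, ENNReal.ofReal_mul (by positivity)]
    gcongr
    rw [newton]
    by_cases hz : ‖a - y‖ = 0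
    · simp [hz]
    · rw [ENNReal.ofReal_inv_of_pos (lt_of_le_of_ne (norm_nonneg _) (Ne.symm hz))]
      norm_num
  calc ∫⁻ y in L, ‖Phi (a - y)‖ₑ ≤ ∫⁻ y in L, ENNReal.ofReal (4 * Real.pi)⁻¹ * newton a y :=
        lintegral_mono h0
    _ = ENNReal.ofReal (4 * Real.pi)⁻¹ * ∫⁻ y in L, newton a y := by
        rw [lintegral_const_mul _ (newton_measurable a)]
    _ ≤ _ := by gcongr; exact h a

end Pool.Agent.W797.Cap
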