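import Pool.Agent.W797.Cap.Upper

/-! # Product functions on three-space -/

set_option autoImplicit false

open MeasureTheory Set Filter Topology Metric
open scoped InnerProductSpace ContDiff Laplacian ENNReal
open Pool.Agent.Helper486.TP

namespace Pool.Agent.W797.Cap

/-- product function -/
def PF (a b c : ℝ → ℝ) (x : E3) : ℝ := a (x 0) * b (x 1) * c (x 2)

theorem proj_contDiff (i : Fin 3) : ContDiff ℝ ∞ (fun x : E3 => x i) :=
  (EuclideanSpace.proj i : E3 →L[ℝ] ℝ).contDiff

theorem PF_contDiff {a b c : ℝ → ℝ} (ha : ContDiff ℝ ∞ a) (hb : ContDiff ℝ ∞ b) (hc : ContDiff ℝ ∞ c) :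
    ContDiff ℝ ∞ (PF a b c) := by
  unfold PF
  exact ((ha.comp (proj_contDiff 0)).mul (hb.comp (proj_contDiff 1))).mul (hc.comp (proj_contDiff 2))

theorem comp_proj_deriv {a : ℝ → ℝ} (ha : Differentiable ℝ a) (i : Fin 3) (x : E3) :
    HasFDerivAt (fun x : E3 => a (x i)) (deriv a (x i) • (EuclideanSpace.proj i : E3 →L[ℝ] ℝ)) x := by
  have h1 : HasFDerivAt (fun x : E3 => x i) (EuclideanSpace.proj i : E3 →L[ℝ] ℝ) x :=
    (EuclideanSpace.proj i : E3 →L[ℝ] ℝ).hasFDerivAt
  exact (ha (x i)).hasDerivAt.comp_hasFDerivAt x h1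

theorem PF_hasFDeriv {a b c : ℝ → ℝ} (ha : Differentiable ℝ a) (hb : Differentiable ℝ b)
    (hc : Differentiable ℝ c) (x : E3) :
    HasFDerivAt (PF a b c)
      ((a (x 0) * b (x 1)) • (deriv c (x 2) • (EuclideanSpace.proj 2 : E3 →L[ℝ] ℝ))
        + c (x 2) • (a (x 0) • (deriv b (x 1) • (EuclideanSpace.proj 1 : E3 →L[ℝ] ℝ))
          + b (x 1) • (deriv a (x 0) • (EuclideanSpace.proj 0 : E3 →L[ℝ] ℝ)))) x :=
  ((comp_proj_deriv ha 0 x).mul (comp_proj_deriv hb 1 x)).mul (comp_proj_deriv hc 2 x)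

theorem PF_d0 {a b c : ℝ → ℝ} (ha : Differentiable ℝ a) (hb : Differentiable ℝ b)
    (hc : Differentiable ℝ c) : (fun x => fderiv ℝ (PF a b c) x (EuclideanSpace.basisFun (Fin 3) ℝ 0))
      = PF (deriv a) b c := by
  ext x
  rw [(PF_hasFDeriv ha hb hc x).fderiv]
  simp [PF]
  ring

theorem PF_d1 {a b c : ℝ → ℝ} (ha : Differentiable ℝ a) (hb : Differentiable ℝ b)
    (hc : Differentiable ℝ c) : (fun x => fderiv ℝ (PF a b c) x (EuclideanSpace.basisFun (Fin 3) ℝ 1))
      = PF a (deriv b) c := by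
  ext x
  rw [(PF_hasFDeriv ha hb hc x).fderiv]
  simp [PF]
  ring

theorem PF_d2 {a b c : ℝ → ℝ} (ha : Differentiable ℝ a) (hb : Differentiable ℝ b)
    (hc : Differentiable ℝ c) : (fun x => fderiv ℝ (PF a b c) x (EuclideanSpace.basisFun (Fin 3) ℝ 2))
      = PF a b (deriv c) := by
  ext x
  rw [(PF_hasFDeriv ha hb hc x).fderiv]
  simp [PF]

theorem diff_of {a : ℝ → ℝ} (ha : ContDiff ℝ ∞ a) : Differentiable ℝ a := ha.differentiable (by simp)

theorem cd_deriv {a : ℝ → ℝ} (ha : ContDiff ℝ ∞ a) : ContDiff ℝ ∞ (deriv a) :=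
  (contDiff_infty_iff_deriv.1 ha).2

theorem PF_lap {a b c : ℝ → ℝ} (ha : ContDiff ℝ ∞ a) (hb : ContDiff ℝ ∞ b) (hc : ContDiff ℝ ∞ c) (x : E3) :
    (Δ (PF a b c)) x = PF (deriv (deriv a)) b c x + PF a (deriv (deriv b)) c x + PF a b (deriv (deriv c)) x := by
  rw [nl_lap_eq (PF_contDiff ha hb hc), Fin.sum_univ_three]
  have da := diff_of ha
  have db := diff_of hb
  have dc := diff_of hc
  rw [PF_d0 da db dc, PF_d1 da db dc, PF_d2 da db dc]
  rw [congrFun (PF_d0 (diff_of (cd_deriv ha)) db dc) x, congrFun (PF_d1 da (diff_of (cd_deriv hb)) dc) x,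
    congrFun (PF_d2 da db (diff_of (cd_deriv hc))) x]

theorem PF_integral (a b c : ℝ → ℝ) : ∫ x, PF a b c x = (∫ t, a t) * (∫ t, b t) * (∫ t, c t) := by
  have h := integral_fintype_prod_volume_eq_prod (fun i : Fin 3 => ![a, b, c] i)
  rw [Fin.prod_univ_three] at h
  have h2 := (PiLp.volume_preserving_ofLp (Fin 3)).integral_comp
    (MeasurableEquiv.toLp 2 (Fin 3 → ℝ)).symm.measurableEmbedding (fun y : Fin 3 → ℝ => ∏ i, ![a, b, c] i (y i))
  have h3 : ∀ x : E3, PF a b c x = ∏ i, ![a, b, c] i ((WithLp.ofLp x) i) := by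
    intro x
    rw [Fin.prod_univ_three]
    rfl
  calc ∫ x, PF a b c x = ∫ x : E3, ∏ i, ![a, b, c] i ((WithLp.ofLp x) i) := by simp_rw [h3]
    _ = ∫ y : Fin 3 → ℝ, ∏ i, ![a, b, c] i (y i) := h2
    _ = _ := h

theorem PF_compact {a b c : ℝ → ℝ} (ha : HasCompactSupport a) (hb : HasCompactSupport b)
    (hc : HasCompactSupport c) : HasCompactSupport (PF a b c) := by
  have hK : IsCompact ((MeasurableEquiv.toLp 2 (Fin 3 → ℝ)) '' (Set.pi univ fun i : Fin 3 => tsupport (![a, b, c] i))) := by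
    apply IsCompact.image
    · apply isCompact_univ_pi
      intro i
      fin_cases i
      · exact ha
      · exact hb
      · exact hc
    · exact PiLp.continuous_toLp 2 _
  refine HasCompactSupport.intro hK ?_
  intro x hx
  unfold PF
  by_contra hne
  apply hx
  refine ⟨WithLp.ofLp x, ?_, rfl⟩
  have h0 : a (x 0) ≠ 0 := fun h => hne (by rw [h]; ring)
  have h1 : b (x 1) ≠ 0 := fun h => hne (by rw [h]; ring)
  have h2 : c (x 2) ≠ 0 := fun h => hne (by rw [h]; ring)
  intro i _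
  fin_cases i
  · exact subset_tsupport _ h0
  · exact subset_tsupport _ h1
  · exact subset_tsupport _ h2

theorem int_deriv_zero {b : ℝ → ℝ} (hb : ContDiff ℝ ∞ b) (hc : HasCompactSupport b) : ∫ t, deriv b t = 0 := by
  have h := (diff_of hb)
  apply integral_eq_zero_of_hasDerivAt_of_integrable (f := b) (fun x => (h x).hasDerivAt)
  · exact (cd_deriv hb).continuous.integrable_of_hasCompactSupport hc.deriv
  · exact hb.continuous.integrable_of_hasCompactSupport hc

/-- the integral over the half space of the Laplacian of a product -/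
theorem half_lap {a b c : ℝ → ℝ} (ha : ContDiff ℝ ∞ a) (hb : ContDiff ℝ ∞ b) (hc : ContDiff ℝ ∞ c)
    (sa : HasCompactSupport a) (sb : HasCompactSupport b) (sc : HasCompactSupport c) :
    ∫ x : E3, (if 0 < x 0 then (Δ (PF a b c)) x else 0) = -deriv a 0 * (∫ t, b t) * (∫ t, c t) := by
  set ind : (ℝ → ℝ) → ℝ → ℝ := fun f => (Ioi (0 : ℝ)).indicator f with hind
  have hsplit : ∀ x : E3, (if 0 < x 0 then (Δ (PF a b c)) x else 0)
      = PF (ind (deriv (deriv a))) b c x + PF (ind a) (deriv (deriv b)) c x + PF (ind a) b (deriv (deriv c)) x := by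
    intro x
    by_cases h : 0 < x 0
    · rw [if_pos h, PF_lap ha hb hc]
      have h' : x 0 ∈ Ioi (0 : ℝ) := h
      simp only [PF, hind, indicator_of_mem h']
    · rw [if_neg h]
      have h' : x 0 ∉ Ioi (0 : ℝ) := h
      simp only [PF, hind, indicator_of_notMem h']
      ring
  simp_rw [hsplit]
  have hintb : ∀ {a b c : ℝ → ℝ}, ContDiff ℝ ∞ a → ContDiff ℝ ∞ b → ContDiff ℝ ∞ c → HasCompactSupport a →
      HasCompactSupport b → HasCompactSupport c → Integrable (PF (ind a) b c) := by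
    intro a b c ha hb hc sa sb sc
    have h1 : Integrable (PF a b c) :=
      (PF_contDiff ha hb hc).continuous.integrable_of_hasCompactSupport (PF_compact sa sb sc)
    have h2 : PF (ind a) b c = {x : E3 | 0 < x 0}.indicator (PF a b c) := by
      ext x
      by_cases h : 0 < x 0
      · have h' : x 0 ∈ Ioi (0 : ℝ) := h
        have h'' : x ∈ {x : E3 | 0 < x 0} := h
        rw [indicator_of_mem h'']
        simp only [PF, hind, indicator_of_mem h']
      · have h' : x 0 ∉ Ioi (0 : ℝ) := h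
        have h'' : x ∉ {x : E3 | 0 < x 0} := h
        rw [indicator_of_notMem h'']
        simp only [PF, hind, indicator_of_notMem h']
        ring
    rw [h2]
    refine h1.indicator ?_
    exact measurableSet_lt measurable_const (by fun_prop)
  rw [integral_add, integral_add, PF_integral, PF_integral, PF_integral]
  · rw [int_deriv_zero (cd_deriv hb) sb.deriv, int_deriv_zero (cd_deriv hc) sc.deriv]
    have h3 : ∫ t, ind (deriv (deriv a)) t = -deriv a 0 := by
      rw [hind]
      simp only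
      rw [integral_indicator measurableSet_Ioi]
      exact HasCompactSupport.integral_Ioi_deriv_eq ((cd_deriv ha).of_le (by exact_mod_cast le_top)) sa.deriv 0
    rw [h3]
    ring
  · exact hintb (cd_deriv (cd_deriv ha)) hb hc sa.deriv.deriv sb sc
  · exact hintb ha (cd_deriv (cd_deriv hb)) hc sa sb.deriv.deriv sc
  · exact (hintb (cd_deriv (cd_deriv ha)) hb hc sa.deriv.deriv sb sc).add (hintb ha (cd_deriv (cd_deriv hb)) hc sa sb.deriv.deriv sc)
  · exact hintb ha hb (cd_deriv (cd_deriv hc)) sa sb sc.deriv.deriv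

end Pool.Agent.W797.Cap
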