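import Pool.Agent.W797.Cap.ProdF
import Pool.Agent.W797.Cap.KSet

/-! # The annihilating functions -/

set_option autoImplicit false

open MeasureTheory Set Filter Topology Metric
open scoped InnerProductSpace ContDiff Laplacian ENNReal
open Pool.Agent.Helper486.TP

namespace Pool.Agent.W797.Cap

/-- a bump -/
noncomputable def Xb : ContDiffBump (0 : ℝ) := ⟨1 / 8, 1 / 4, by norm_num, by norm_num⟩
/-- a bump -/
noncomputable def alb : ContDiffBump (0 : ℝ) := ⟨3 / 4, 7 / 8, by norm_num, by norm_num⟩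
/-- a bump -/
noncomputable def beb : ContDiffBump (1 / 2 : ℝ) := ⟨1 / 8, 1 / 4, by norm_num, by norm_num⟩

/-- bump at the origin -/
noncomputable def X (s : ℝ) : ℝ := Xb s
/-- `t` times a bump -/
noncomputable def a0 (t : ℝ) : ℝ := t * alb t
/-- bump at one half -/
noncomputable def b0 (t : ℝ) : ℝ := beb t
/-- auxiliary -/
noncomputable def Y (s : ℝ) : ℝ := (1 + s) * X s
/-- first factor of the correction -/
noncomputable def ak (k : ℕ) (t : ℝ) : ℝ := hh k * Y ((hh k)⁻¹ * (t - hh k))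
/-- third factor of the correction -/
noncomputable def ck (k : ℕ) (t : ℝ) : ℝ := b0 t * X ((hh k)⁻¹ * (t - zz k))
/-- main function -/
noncomputable def w : E3 → ℝ := PF a0 b0 b0
/-- correction -/
noncomputable def wk (k : ℕ) : E3 → ℝ := PF (ak k) b0 (ck k)
/-- corrected function -/
noncomputable def wJ (J : ℕ) : E3 → ℝ := fun x => w x - ∑ k ∈ Finset.range J, wk k x

theorem X_cd : ContDiff ℝ ∞ X := Xb.contDiff
theorem b0_cd : ContDiff ℝ ∞ b0 := beb.contDiff
theorem a0_cd : ContDiff ℝ ∞ a0 := contDiff_id.mul alb.contDiff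
theorem Y_cd : ContDiff ℝ ∞ Y := (contDiff_const.add contDiff_id).mul X_cd
theorem aff_cd (c d : ℝ) : ContDiff ℝ ∞ (fun t : ℝ => c * (t - d)) := by fun_prop
theorem ak_cd (k : ℕ) : ContDiff ℝ ∞ (ak k) := contDiff_const.mul (Y_cd.comp (aff_cd _ _))
theorem ck_cd (k : ℕ) : ContDiff ℝ ∞ (ck k) := b0_cd.mul (X_cd.comp (aff_cd _ _))
theorem w_cd : ContDiff ℝ ∞ w := PF_contDiff a0_cd b0_cd b0_cd
theorem wk_cd (k : ℕ) : ContDiff ℝ ∞ (wk k) := PF_contDiff (ak_cd k) b0_cd (ck_cd k)

theorem X_zero {s : ℝ} (h : 1 / 4 ≤ |s|) : X s = 0 := by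
  apply Xb.zero_of_le_dist
  rw [Real.dist_eq, sub_zero]
  exact h

theorem X_one {s : ℝ} (h : |s| ≤ 1 / 8) : X s = 1 := by
  apply Xb.one_of_mem_closedBall
  rw [mem_closedBall, Real.dist_eq, sub_zero]
  exact h

theorem b0_zero {s : ℝ} (h : 1 / 4 ≤ |s - 1 / 2|) : b0 s = 0 := by
  apply beb.zero_of_le_dist
  rw [Real.dist_eq]
  exact h

theorem al_zero {s : ℝ} (h : 7 / 8 ≤ |s|) : alb s = 0 := by
  apply alb.zero_of_le_dist
  rw [Real.dist_eq, sub_zero]
  exact h

theorem al_one {s : ℝ} (h : |s| ≤ 3 / 4) : alb s = 1 := by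
  apply alb.one_of_mem_closedBall
  rw [mem_closedBall, Real.dist_eq, sub_zero]
  exact h

theorem X_abs (s : ℝ) : |X s| ≤ 1 := by
  rw [X, abs_of_nonneg Xb.nonneg]; exact Xb.le_one

theorem b0_abs (s : ℝ) : |b0 s| ≤ 1 := by
  rw [b0, abs_of_nonneg beb.nonneg]; exact beb.le_one

theorem X_cs : HasCompactSupport X := Xb.hasCompactSupport
theorem b0_cs : HasCompactSupport b0 := beb.hasCompactSupport
theorem a0_cs : HasCompactSupport a0 := alb.hasCompactSupport.mul_left
theorem Y_cs : HasCompactSupport Y := X_cs.mul_left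

theorem aff_emb (c d : ℝ) (hc : c ≠ 0) : IsClosedEmbedding (fun t : ℝ => c * (t - d)) :=
  ((Homeomorph.subRight d).trans (Homeomorph.mulLeft₀ c hc)).isClosedEmbedding

theorem ak_cs (k : ℕ) : HasCompactSupport (ak k) :=
  (Y_cs.comp_isClosedEmbedding (aff_emb _ _ (inv_ne_zero (hh_pos k).ne'))).mul_left

theorem ck_cs (k : ℕ) : HasCompactSupport (ck k) := b0_cs.mul_right

theorem w_cs : HasCompactSupport w := PF_compact a0_cs b0_cs b0_cs
theorem wk_cs (k : ℕ) : HasCompactSupport (wk k) := PF_compact (ak_cs k) b0_cs (ck_cs k)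

theorem ak_near {k : ℕ} {t : ℝ} (h : ak k t ≠ 0) : 3 / 4 * hh k < t ∧ t < 5 / 4 * hh k := by
  by_contra hcon
  apply h
  have hp := hh_pos k
  have hX : X ((hh k)⁻¹ * (t - hh k)) = 0 := by
    apply X_zero
    rw [abs_mul, abs_inv, abs_of_pos hp]
    rw [inv_mul_eq_div, le_div_iff₀ hp]
    rw [not_and_or, not_lt, not_lt] at hcon
    rcases hcon with hcon | hcon
    · rw [abs_of_nonpos (by linarith)]; linarith
    · rw [abs_of_nonneg (by linarith)]; linarith
  rw [ak, Y, hX]
  ring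

theorem ak_eq {k : ℕ} (t : ℝ) : ak k t = t * X ((hh k)⁻¹ * (t - hh k)) := by
  rw [ak, Y]
  have := (hh_pos k).ne'
  field_simp
  ring

theorem wk_on {k : ℕ} {x : E3} (hx : x ∈ UU k) : wk k x = w x := by
  have hp := hh_pos k
  have hle := hh_le k
  have h1 : X ((hh k)⁻¹ * (x 0 - hh k)) = 1 := by
    apply X_one
    rw [abs_mul, abs_inv, abs_of_pos hp, inv_mul_eq_div, div_le_iff₀ hp]
    have := hx.1
    linarith
  have h2 : X ((hh k)⁻¹ * (x 2 - zz k)) = 1 := by
    apply X_one
    rw [abs_mul, abs_inv, abs_of_pos hp, inv_mul_eq_div, div_le_iff₀ hp]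
    have := hx.2
    linarith
  have h3 : alb (x 0) = 1 := by
    apply al_one
    have h4 := UU_pos hx
    rw [abs_of_pos (by linarith)]
    linarith
  simp only [wk, w, PF, ak_eq, ck, h1, h2, a0, h3, mul_one]

theorem wk_off {j k : ℕ} (hjk : j ≠ k) {x : E3} (hx : x ∈ UU k) : wk j x = 0 := by
  have h : ak j (x 0) = 0 := by
    by_contra hne
    have h1 := ak_near hne
    have h2 := UU_pos hx
    rcases lt_or_gt_of_ne hjk with h3 | h3
    · have := hh_lt h3
      have := hh_pos j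
      linarith
    · have := hh_lt h3
      have := hh_pos k
      linarith
  simp [wk, PF, h]

theorem wJ_zero {J k : ℕ} (hk : k < J) {x : E3} (hx : x ∈ UU k) : wJ J x = 0 := by
  rw [wJ]
  have : ∑ j ∈ Finset.range J, wk j x = wk k x := by
    apply Finset.sum_eq_single_of_mem k (Finset.mem_range.2 hk)
    intro j _ hj
    exact wk_off hj hx
  rw [this, wk_on hx, sub_self]

theorem wJ_eq {J k : ℕ} (hk : J ≤ k) {x : E3} (hx : x ∈ UU k) : wJ J x = w x := by
  rw [wJ]
  have : ∑ j ∈ Finset.range J, wk j x = 0 := by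
    apply Finset.sum_eq_zero
    intro j hj
    exact wk_off (by have := Finset.mem_range.1 hj; omega) hx
  rw [this, sub_zero]

theorem w_supp_box : tsupport w ⊆ Box := by
  apply closure_minimal _ Box_closed
  intro x hx
  rw [Function.mem_support] at hx
  have h0 : |x 0| < 7 / 8 := by
    by_contra h
    apply hx
    simp [w, PF, a0, al_zero (not_lt.1 h)]
  have h1 : |x 1 - 1 / 2| < 1 / 4 := by
    by_contra h
    apply hx
    simp only [w, PF, b0_zero (not_lt.1 h)]
    ring
  have h2 : |x 2 - 1 / 2| < 1 / 4 := by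
    by_contra h
    apply hx
    simp only [w, PF, b0_zero (not_lt.1 h)]
    ring
  rw [abs_lt] at h1 h2
  exact ⟨by linarith, ⟨by linarith [h1.1], by linarith [h1.2]⟩, ⟨by linarith [h2.1], by linarith [h2.2]⟩⟩

theorem wk_supp (k : ℕ) {x : E3} (hx : w x = 0) : wk k x = 0 := by
  by_contra hne
  have ha : ak k (x 0) ≠ 0 := fun h => hne (by simp [wk, PF, h])
  have hb : b0 (x 1) ≠ 0 := fun h => hne (by simp [wk, PF, h])
  have hc : b0 (x 2) ≠ 0 := fun h => hne (by simp [wk, PF, ck, h])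
  have h1 := ak_near ha
  have hp := hh_pos k
  have hle := hh_le k
  have h3 : alb (x 0) = 1 := by
    apply al_one
    rw [abs_of_pos (by linarith)]
    linarith
  have h4 : x 0 ≠ 0 := by
    have : 0 < x 0 := by linarith
    exact this.ne'
  apply absurd hx
  simp only [w, PF, a0, h3, mul_one]
  exact mul_ne_zero (mul_ne_zero h4 hb) hc

theorem wJ_supp (J : ℕ) {x : E3} (hx : w x = 0) : wJ J x = 0 := by
  rw [wJ, hx, Finset.sum_eq_zero (fun k _ => wk_supp k hx), sub_zero]

theorem wJ_cd (J : ℕ) : ContDiff ℝ ∞ (wJ J) := by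
  unfold wJ
  exact w_cd.sub (ContDiff.sum fun k _ => wk_cd k)

theorem wJ_tsupp (J : ℕ) : tsupport (wJ J) ⊆ tsupport w \ ⋃ k ∈ Finset.range J, UU k := by
  have hcl : IsClosed (tsupport w \ ⋃ k ∈ Finset.range J, UU k) :=
    (isClosed_tsupport w).sdiff (isOpen_biUnion fun k _ => UU_open k)
  apply closure_minimal _ hcl
  intro x hx
  refine ⟨subset_tsupport w (fun h => hx (wJ_supp J h)), fun hU => ?_⟩
  simp only [mem_iUnion] at hU
  obtain ⟨k, hk, hkx⟩ := hU
  exact hx (wJ_zero (Finset.mem_range.1 hk) hkx)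

theorem wJ_cs (J : ℕ) : HasCompactSupport (wJ J) :=
  HasCompactSupport.intro w_cs (fun _ hx => wJ_supp J (image_eq_zero_of_notMem_tsupport hx))

/-- Laplacian of the corrected function -/
theorem wJ_lap (J : ℕ) (x : E3) : (Δ (wJ J)) x = (Δ w) x - ∑ k ∈ Finset.range J, (Δ (wk k)) x := by
  induction J with
  | zero =>
    have h0 : wJ 0 = w := by
      funext y
      simp [wJ]
    rw [h0]
    simp
  | succ J ih =>
    have h1 : wJ (J + 1) = fun x => wJ J x + (-1) * wk J x := by
      ext y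
      simp only [wJ, Finset.sum_range_succ]
      ring
    rw [h1, lap_add (wJ_cd J) (contDiff_const.mul (wk_cd J)), lap_const_mul _ (wk_cd J), ih, Finset.sum_range_succ]
    ring

/-- the constant `A = ∫ b0` -/
noncomputable def B0 : ℝ := ∫ t, b0 t

theorem B0_pos : 0 < B0 := beb.integral_pos

theorem a0_deriv : deriv a0 0 = 1 := by
  have h : a0 =ᶠ[𝓝 0] fun t => t := by
    filter_upwards [Metric.ball_mem_nhds (0 : ℝ) (show (0 : ℝ) < 3 / 4 by norm_num)] with t ht
    rw [mem_ball, Real.dist_eq, sub_zero] at ht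
    rw [a0, al_one ht.le, mul_one]
  rw [h.deriv_eq]
  simp

theorem ak_deriv (k : ℕ) : deriv (ak k) 0 = 0 := by
  have hp := hh_pos k
  have h : ak k =ᶠ[𝓝 0] fun _ => 0 := by
    filter_upwards [gt_mem_nhds (show (0 : ℝ) < 3 / 4 * hh k by positivity)] with t ht
    by_contra hne
    exact absurd (ak_near hne).1 (by linarith)
  rw [h.deriv_eq]
  simp

theorem lap_int {φ : E3 → ℝ} (h : ContDiff ℝ ∞ φ) (hc : HasCompactSupport φ) : Integrable (Δ φ) :=
  (lap_continuous h).integrable_of_hasCompactSupport (lap_hasCompactSupport hc)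

theorem half_meas : MeasurableSet {x : E3 | 0 < x 0} := measurableSet_lt measurable_const (by fun_prop)

theorem half_int {φ : E3 → ℝ} (h : ContDiff ℝ ∞ φ) (hc : HasCompactSupport φ) :
    Integrable (fun x : E3 => if 0 < x 0 then (Δ φ) x else 0) := by
  have h2 : (fun x : E3 => if 0 < x 0 then (Δ φ) x else 0) = {x : E3 | 0 < x 0}.indicator (Δ φ) := by
    ext x
    by_cases h : 0 < x 0
    · have h'' : x ∈ {x : E3 | 0 < x 0} := h
      rw [indicator_of_mem h'', if_pos h]
    · have h'' : x ∉ {x : E3 | 0 < x 0} := h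
      rw [indicator_of_notMem h'', if_neg h]
  rw [h2]
  exact (lap_int h hc).indicator half_meas

theorem half_wJ (J : ℕ) : ∫ x : E3, (if 0 < x 0 then (Δ (wJ J)) x else 0) = -(B0 * B0) := by
  have h0 : ∀ x : E3, (if 0 < x 0 then (Δ (wJ J)) x else 0)
      = (if 0 < x 0 then (Δ w) x else 0) - ∑ k ∈ Finset.range J, (if 0 < x 0 then (Δ (wk k)) x else 0) := by
    intro x
    by_cases h : 0 < x 0
    · simp only [if_pos h]
      exact wJ_lap J x
    · simp only [if_neg h]
      simp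
  simp_rw [h0]
  rw [integral_sub, integral_finsetSum]
  · have h1 : ∫ x : E3, (if 0 < x 0 then (Δ w) x else 0) = -(B0 * B0) := by
      rw [w, half_lap a0_cd b0_cd b0_cd a0_cs b0_cs b0_cs, a0_deriv, B0]
      ring
    have h2 : ∀ k, ∫ x : E3, (if 0 < x 0 then (Δ (wk k)) x else 0) = 0 := by
      intro k
      rw [wk, half_lap (ak_cd k) b0_cd (ck_cd k) (ak_cs k) b0_cs (ck_cs k), ak_deriv]
      ring
    rw [h1, Finset.sum_eq_zero (fun k _ => h2 k), sub_zero]
  · intro k _
    exact half_int (wk_cd k) (wk_cs k)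
  · exact half_int w_cd w_cs
  · exact integrable_finsetSum _ fun k _ => half_int (wk_cd k) (wk_cs k)

end Pool.Agent.W797.Cap
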