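import Pool.Agent.W797.Cap.WFun

/-! # Uniform bound for the norms of the Laplacians -/

set_option autoImplicit false

open MeasureTheory Set Filter Topology Metric
open scoped InnerProductSpace ContDiff Laplacian ENNReal
open Pool.Agent.Helper486.TP

namespace Pool.Agent.W797.Cap

theorem deriv_aff {f : ℝ → ℝ} (hf : Differentiable ℝ f) (c d : ℝ) :
    deriv (fun t => f (c * (t - d))) = fun t => c * deriv f (c * (t - d)) := by
  ext t
  have h1 : HasDerivAt (fun t : ℝ => c * (t - d)) c t := by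
    have := ((hasDerivAt_id t).sub_const d).const_mul c
    simpa using this
  have h2 := (hf (c * (t - d))).hasDerivAt.comp t h1
  have h3 : deriv (fun t => f (c * (t - d))) t = _ := h2.deriv
  rw [h3]
  ring

theorem bdd_of {f : ℝ → ℝ} (hf : Continuous f) (hc : HasCompactSupport f) : ∃ C, 0 ≤ C ∧ ∀ t, |f t| ≤ C := by
  obtain ⟨C, hC⟩ := hc.exists_bound_of_continuous hf
  exact ⟨max C 0, le_max_right _ _, fun t => (hC t).trans (le_max_left _ _)⟩

theorem deriv2_ak (k : ℕ) (t : ℝ) :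
    deriv (deriv (ak k)) t = (hh k)⁻¹ * deriv (deriv Y) ((hh k)⁻¹ * (t - hh k)) := by
  have hp := (hh_pos k).ne'
  have h1 : deriv (ak k) = fun t => deriv Y ((hh k)⁻¹ * (t - hh k)) := by
    have h0 : ak k = fun t => hh k * (fun t => Y ((hh k)⁻¹ * (t - hh k))) t := rfl
    rw [h0]
    ext t
    rw [deriv_const_mul_field, deriv_aff (diff_of Y_cd)]
    field_simp
  rw [h1, deriv_aff (diff_of (cd_deriv Y_cd))]

theorem deriv2_ck (k : ℕ) (t : ℝ) :
    deriv (deriv (ck k)) t = deriv (deriv b0) t * X ((hh k)⁻¹ * (t - zz k))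
      + 2 * (deriv b0 t * ((hh k)⁻¹ * deriv X ((hh k)⁻¹ * (t - zz k))))
      + b0 t * ((hh k)⁻¹ * ((hh k)⁻¹ * deriv (deriv X) ((hh k)⁻¹ * (t - zz k)))) := by
  set g : ℝ → ℝ := fun t => X ((hh k)⁻¹ * (t - zz k)) with hg
  have hgc : ContDiff ℝ ∞ g := X_cd.comp (aff_cd _ _)
  have hg1 : deriv g = fun t => (hh k)⁻¹ * deriv X ((hh k)⁻¹ * (t - zz k)) := deriv_aff (diff_of X_cd) _ _
  have hg2 : deriv (deriv g) = fun t => (hh k)⁻¹ * ((hh k)⁻¹ * deriv (deriv X) ((hh k)⁻¹ * (t - zz k))) := by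
    rw [hg1]
    ext t
    rw [deriv_const_mul_field, deriv_aff (diff_of (cd_deriv X_cd))]
  have h0 : ck k = fun t => b0 t * g t := rfl
  have h1 : deriv (ck k) = fun t => deriv b0 t * g t + b0 t * deriv g t := by
    rw [h0]
    ext t
    exact deriv_fun_mul ((diff_of b0_cd) t) ((diff_of hgc) t)
  rw [h1]
  have h2 : deriv (fun t => deriv b0 t * g t + b0 t * deriv g t) t
      = (deriv (deriv b0) t * g t + deriv b0 t * deriv g t) + (deriv b0 t * deriv g t + b0 t * deriv (deriv g) t) := by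
    have e1 : HasDerivAt (fun t => deriv b0 t * g t) (deriv (deriv b0) t * g t + deriv b0 t * deriv g t) t :=
      ((diff_of (cd_deriv b0_cd)) t).hasDerivAt.mul ((diff_of hgc) t).hasDerivAt
    have e2 : HasDerivAt (fun t => b0 t * deriv g t) (deriv b0 t * deriv g t + b0 t * deriv (deriv g) t) t :=
      ((diff_of b0_cd) t).hasDerivAt.mul ((diff_of (cd_deriv hgc)) t).hasDerivAt
    exact (e1.add e2).deriv
  rw [h2, hg2, hg1]
  simp only [hg]
  ring

theorem wk_bound : ∃ C : ℝ, 0 ≤ C ∧ ∀ (k : ℕ) (x : E3), |(Δ (wk k)) x| ≤ C * (hh k)⁻¹ := by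
  obtain ⟨Y0, hY0, bY0⟩ := bdd_of Y_cd.continuous Y_cs
  obtain ⟨Y2, hY2, bY2⟩ := bdd_of (cd_deriv (cd_deriv Y_cd)).continuous Y_cs.deriv.deriv
  obtain ⟨b1, hb1, bb1⟩ := bdd_of (cd_deriv b0_cd).continuous b0_cs.deriv
  obtain ⟨b2, hb2, bb2⟩ := bdd_of (cd_deriv (cd_deriv b0_cd)).continuous b0_cs.deriv.deriv
  obtain ⟨X1, hX1, bX1⟩ := bdd_of (cd_deriv X_cd).continuous X_cs.deriv
  obtain ⟨X2, hX2, bX2⟩ := bdd_of (cd_deriv (cd_deriv X_cd)).continuous X_cs.deriv.deriv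
  refine ⟨Y2 + Y0 * b2 + Y0 * (b2 + 2 * b1 * X1 + X2), by positivity, ?_⟩
  intro k x
  have hp := hh_pos k
  have hle := hh_le k
  have hinv : 1 ≤ (hh k)⁻¹ := (one_le_inv₀ hp).2 (by linarith)
  rw [wk, PF_lap (ak_cd k) b0_cd (ck_cd k)]
  have cA2 : |deriv (deriv (ak k)) (x 0)| ≤ (hh k)⁻¹ * Y2 := by
    rw [deriv2_ak, abs_mul, abs_of_pos (inv_pos.2 hp)]
    gcongr
    exact bY2 _
  have cA0 : |ak k (x 0)| ≤ hh k * Y0 := by
    rw [ak, abs_mul, abs_of_pos hp]
    gcongr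
    exact bY0 _
  have cC0 : |ck k (x 2)| ≤ 1 := by
    rw [ck, abs_mul]
    exact mul_le_one₀ (b0_abs _) (abs_nonneg _) (X_abs _)
  have cC2 : |deriv (deriv (ck k)) (x 2)| ≤ (b2 + 2 * b1 * X1 + X2) * ((hh k)⁻¹ * (hh k)⁻¹) := by
    rw [deriv2_ck]
    set u := (hh k)⁻¹ * (x 2 - zz k)
    have t1 : |deriv (deriv b0) (x 2) * X u| ≤ b2 * ((hh k)⁻¹ * (hh k)⁻¹) := by
      rw [abs_mul]
      calc |deriv (deriv b0) (x 2)| * |X u| ≤ b2 * 1 := by
            gcongr
            · exact bb2 _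
            · exact X_abs _
        _ ≤ b2 * ((hh k)⁻¹ * (hh k)⁻¹) := by
            gcongr
            nlinarith
    have t2 : |2 * (deriv b0 (x 2) * ((hh k)⁻¹ * deriv X u))| ≤ (2 * b1 * X1) * ((hh k)⁻¹ * (hh k)⁻¹) := by
      rw [abs_mul, abs_mul, abs_mul, abs_of_pos (inv_pos.2 hp), abs_of_pos (by norm_num : (0 : ℝ) < 2)]
      calc 2 * (|deriv b0 (x 2)| * ((hh k)⁻¹ * |deriv X u|)) ≤ 2 * (b1 * ((hh k)⁻¹ * X1)) := by
            gcongr
            · exact bb1 _
            · exact bX1 _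
        _ = (2 * b1 * X1) * ((hh k)⁻¹ * 1) := by ring
        _ ≤ _ := by gcongr
    have t3 : |b0 (x 2) * ((hh k)⁻¹ * ((hh k)⁻¹ * deriv (deriv X) u))| ≤ X2 * ((hh k)⁻¹ * (hh k)⁻¹) := by
      rw [abs_mul, abs_mul, abs_mul, abs_of_pos (inv_pos.2 hp)]
      calc |b0 (x 2)| * ((hh k)⁻¹ * ((hh k)⁻¹ * |deriv (deriv X) u|)) ≤ 1 * ((hh k)⁻¹ * ((hh k)⁻¹ * X2)) := by
            gcongr
            · exact b0_abs _
            · exact bX2 _
        _ = _ := by ring
    calc _ ≤ |deriv (deriv b0) (x 2) * X u + 2 * (deriv b0 (x 2) * ((hh k)⁻¹ * deriv X u))|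
            + |b0 (x 2) * ((hh k)⁻¹ * ((hh k)⁻¹ * deriv (deriv X) u))| := abs_add_le _ _
      _ ≤ (|deriv (deriv b0) (x 2) * X u| + |2 * (deriv b0 (x 2) * ((hh k)⁻¹ * deriv X u))|)
            + |b0 (x 2) * ((hh k)⁻¹ * ((hh k)⁻¹ * deriv (deriv X) u))| := by
          gcongr; exact abs_add_le _ _
      _ ≤ _ := by linarith
  have s1 : |PF (deriv (deriv (ak k))) b0 (ck k) x| ≤ Y2 * (hh k)⁻¹ := by
    rw [PF, abs_mul, abs_mul]
    calc |deriv (deriv (ak k)) (x 0)| * |b0 (x 1)| * |ck k (x 2)| ≤ ((hh k)⁻¹ * Y2) * 1 * 1 := by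
          gcongr
          exact b0_abs _
      _ = _ := by ring
  have s2 : |PF (ak k) (deriv (deriv b0)) (ck k) x| ≤ Y0 * b2 * (hh k)⁻¹ := by
    rw [PF, abs_mul, abs_mul]
    calc |ak k (x 0)| * |deriv (deriv b0) (x 1)| * |ck k (x 2)| ≤ (hh k * Y0) * b2 * 1 := by
          gcongr
          exact bb2 _
      _ = Y0 * b2 * hh k := by ring
      _ ≤ Y0 * b2 * (hh k)⁻¹ := by
          gcongr
          linarith
  have s3 : |PF (ak k) b0 (deriv (deriv (ck k))) x| ≤ Y0 * (b2 + 2 * b1 * X1 + X2) * (hh k)⁻¹ := by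
    rw [PF, abs_mul, abs_mul]
    calc |ak k (x 0)| * |b0 (x 1)| * |deriv (deriv (ck k)) (x 2)|
        ≤ (hh k * Y0) * 1 * ((b2 + 2 * b1 * X1 + X2) * ((hh k)⁻¹ * (hh k)⁻¹)) := by
          gcongr
          exact b0_abs _
      _ = Y0 * (b2 + 2 * b1 * X1 + X2) * (hh k)⁻¹ := by
          field_simp
  calc _ ≤ |PF (deriv (deriv (ak k))) b0 (ck k) x + PF (ak k) (deriv (deriv b0)) (ck k) x|
          + |PF (ak k) b0 (deriv (deriv (ck k))) x| := abs_add_le _ _
    _ ≤ (|PF (deriv (deriv (ak k))) b0 (ck k) x| + |PF (ak k) (deriv (deriv b0)) (ck k) x|)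
          + |PF (ak k) b0 (deriv (deriv (ck k))) x| := by gcongr; exact abs_add_le _ _
    _ ≤ _ := by linarith

/-- the box containing the support of the correction -/
def SS (k : ℕ) : Set E3 :=
  WithLp.ofLp ⁻¹' (Icc (![3 / 4 * hh k, 1 / 4, zz k - hh k / 4] : Fin 3 → ℝ) ![5 / 4 * hh k, 3 / 4, zz k + hh k / 4])

theorem SS_vol (k : ℕ) : volume (SS k) ≤ ENNReal.ofReal (hh k ^ 2) := by
  have hp := hh_pos k
  rw [SS, (PiLp.volume_preserving_ofLp (Fin 3)).measure_preimage measurableSet_Icc.nullMeasurableSet,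
    Real.volume_Icc_pi, Fin.prod_univ_three, ← ENNReal.ofReal_mul (by simp; linarith),
    ← ENNReal.ofReal_mul]
  · apply ENNReal.ofReal_le_ofReal
    have e2 : (![5 / 4 * hh k, 3 / 4, zz k + hh k / 4] : Fin 3 → ℝ) 2 - (![3 / 4 * hh k, 1 / 4, zz k - hh k / 4] : Fin 3 → ℝ) 2 = hh k / 2 := by
      show zz k + hh k / 4 - (zz k - hh k / 4) = hh k / 2
      ring
    rw [e2]
    simp only [Matrix.cons_val_zero, Matrix.cons_val_one]
    nlinarith [sq_nonneg (hh k)]
  · simp only [Matrix.cons_val_zero, Matrix.cons_val_one]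
    have : 0 ≤ 5 / 4 * hh k - 3 / 4 * hh k := by linarith
    positivity

theorem SS_closed (k : ℕ) : IsClosed (SS k) :=
  isClosed_Icc.preimage (PiLp.continuous_ofLp 2 _)

theorem wk_tsupp (k : ℕ) : tsupport (wk k) ⊆ SS k := by
  apply closure_minimal _ (SS_closed k)
  intro x hx
  have hne : wk k x ≠ 0 := hx
  have ha : ak k (x 0) ≠ 0 := fun h => hne (by simp [wk, PF, h])
  have hb : |x 1 - 1 / 2| < 1 / 4 := by
    by_contra h
    apply hne
    simp only [wk, PF, b0_zero (not_lt.1 h)]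
    ring
  have hc : |x 2 - zz k| < hh k / 4 := by
    by_contra h
    apply hne
    have hX : X ((hh k)⁻¹ * (x 2 - zz k)) = 0 := by
      apply X_zero
      have hp := hh_pos k
      rw [abs_mul, abs_inv, abs_of_pos hp, inv_mul_eq_div, le_div_iff₀ hp]
      linarith [not_lt.1 h]
    simp [wk, PF, ck, hX]
  have h1 := ak_near ha
  rw [abs_lt] at hb hc
  constructor
  · intro i
    fin_cases i
    · exact h1.1.le
    · show (1 : ℝ) / 4 ≤ x 1
      linarith [hb.1]
    · show zz k - hh k / 4 ≤ x 2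
      linarith [hc.1]
  · intro i
    fin_cases i
    · exact h1.2.le
    · show x 1 ≤ (3 : ℝ) / 4
      linarith [hb.2]
    · show x 2 ≤ zz k + hh k / 4
      linarith [hc.2]

theorem wk_norm {C : ℝ} (hb : ∀ (k : ℕ) (x : E3), |(Δ (wk k)) x| ≤ C * (hh k)⁻¹) (p : ℝ≥0∞) (k : ℕ) :
    eLpNorm (Δ (wk k)) p volume ≤ ENNReal.ofReal (C * hh k ^ (2 * (1 / p).toReal - 1)) := by
  have hp := hh_pos k
  have h1 : Function.support (Δ (wk k)) ⊆ SS k := by
    intro x hx
    by_contra h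
    exact hx (lap_supp (wk_cd k) (wk_cs k) x (fun h2 => h (wk_tsupp k h2)))
  rw [← eLpNorm_restrict_eq_of_support_subset h1]
  refine (eLpNorm_le_of_ae_bound (C := C * (hh k)⁻¹) (ae_of_all _ (fun x => hb k x))).trans ?_
  rw [Measure.restrict_apply_univ]
  have he : p.toReal⁻¹ = (1 / p).toReal := by simp
  rw [he]
  calc volume (SS k) ^ (1 / p).toReal * ENNReal.ofReal (C * (hh k)⁻¹)
      ≤ ENNReal.ofReal (hh k ^ 2) ^ (1 / p).toReal * ENNReal.ofReal (C * (hh k)⁻¹) := by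
        gcongr
        exact SS_vol k
    _ = ENNReal.ofReal (C * hh k ^ (2 * (1 / p).toReal - 1)) := by
        rw [ENNReal.ofReal_rpow_of_pos (by positivity), ← ENNReal.ofReal_mul (by positivity)]
        congr 1
        rw [Real.rpow_sub hp, Real.rpow_one, Real.rpow_mul hp.le]
        have : (hh k : ℝ) ^ (2 : ℝ) = hh k ^ 2 := by norm_cast
        rw [this]
        field_simp

theorem wJ_norm (p : ℝ≥0∞) (hp1 : 1 ≤ p) (hpe : 1 / 2 < (1 / p).toReal) :
    ∃ M : ℝ≥0∞, M ≠ ⊤ ∧ ∀ J, eLpNorm (Δ (wJ J)) p volume ≤ M := by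
  obtain ⟨C, hC, hb⟩ := wk_bound
  set e := 2 * (1 / p).toReal - 1 with he
  have he0 : 0 < e := by rw [he]; linarith
  set r : ℝ := (1 / 2 : ℝ) ^ e with hr
  have hr0 : 0 ≤ r := by positivity
  have hr1 : r < 1 := Real.rpow_lt_one (by norm_num) (by norm_num) he0
  have hhr : ∀ k, hh k ^ e = r ^ (k + 1) := by
    intro k
    rw [hh, hr, ← Real.rpow_natCast, ← Real.rpow_natCast, ← Real.rpow_mul (by norm_num), ← Real.rpow_mul (by norm_num)]
    congr 1
    ring
  refine ⟨eLpNorm (Δ w) p volume + ENNReal.ofReal (C * (1 - r)⁻¹), ?_, ?_⟩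
  · apply ENNReal.add_ne_top.2 ⟨?_, ENNReal.ofReal_ne_top⟩
    exact ((lap_continuous w_cd).memLp_of_hasCompactSupport (lap_hasCompactSupport w_cs)).eLpNorm_ne_top
  · intro J
    have h1 : (Δ (wJ J)) = (Δ w) - ∑ k ∈ Finset.range J, (Δ (wk k)) := by
      ext x
      rw [wJ_lap]
      simp
    rw [h1]
    have hm : ∀ k, AEStronglyMeasurable (Δ (wk k)) volume := fun k => (lap_continuous (wk_cd k)).aestronglyMeasurable
    refine (eLpNorm_sub_le (lap_continuous w_cd).aestronglyMeasurable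
      (Finset.aestronglyMeasurable_sum _ fun k _ => hm k) hp1).trans ?_
    gcongr
    refine (eLpNorm_sum_le (fun k _ => hm k) hp1).trans ?_
    calc ∑ k ∈ Finset.range J, eLpNorm (Δ (wk k)) p volume
        ≤ ∑ k ∈ Finset.range J, ENNReal.ofReal (C * hh k ^ e) :=
          Finset.sum_le_sum fun k _ => wk_norm hb p k
      _ = ENNReal.ofReal (∑ k ∈ Finset.range J, C * hh k ^ e) := by
          rw [ENNReal.ofReal_sum_of_nonneg]
          intro k _
          have := hh_pos k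
          positivity
      _ ≤ ENNReal.ofReal (C * (1 - r)⁻¹) := by
          apply ENNReal.ofReal_le_ofReal
          rw [← Finset.mul_sum]
          gcongr
          simp_rw [hhr]
          calc ∑ k ∈ Finset.range J, r ^ (k + 1) ≤ ∑ k ∈ Finset.range J, r ^ k := by
                apply Finset.sum_le_sum
                intro k _
                exact pow_le_pow_of_le_one hr0 hr1.le (by omega)
            _ ≤ ∑' k, r ^ k := (summable_geometric_of_lt_one hr0 hr1).sum_le_tsum _ (fun k _ => by positivity)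
            _ = (1 - r)⁻¹ := tsum_geometric_of_lt_one hr0 hr1

end Pool.Agent.W797.Cap
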